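import Pool.Agent.W467.Sym.Final2

/-!
Symmetric smooth varieties which are cut out in low degree: ideals of `ℂ[x_0, …, x_N]`.
-/

set_option autoImplicit false

namespace Pool.Agent.W467.Sym

open MvPolynomial

section ren

variable {K : Type*} [Field K] {V V' : Type*} (e : V ≃ V')

theorem grad_rename (F : MvPolynomial V K) (x : V' → K) :
    grad F (x ∘ e) = grad (rename e F) x ∘ e := by
  funext k
  simp only [grad, Function.comp_apply]
  rw [pderiv_rename e.injective, eval_rename]

theorem mem_cone_comap (I : Ideal (MvPolynomial V' K)) (x : V' → K) :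
    x ∘ e ∈ cone (I.comap (rename e : MvPolynomial V K →ₐ[K] MvPolynomial V' K)) ↔
      x ∈ cone I := by
  constructor
  · intro h F hF
    have h1 := h (rename e.symm F) (by
      rw [Ideal.mem_comap, rename_rename]
      have : (e ∘ e.symm : V' → V') = id := by ext; simp
      rw [this, rename_id_apply]
      exact hF)
    rw [eval_rename] at h1
    have : (x ∘ e) ∘ e.symm = x := by ext; simp
    rwa [this] at h1
  · intro h F hF
    rw [← eval_rename]
    exact h _ hF

theorem span_comap (I : Ideal (MvPolynomial V' K)) (x : V' → K) (d : ℕ) :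
    Submodule.span K {ξ | ∃ F ∈ I.comap (rename e : MvPolynomial V K →ₐ[K] MvPolynomial V' K),
      F.totalDegree < d ∧ ξ = grad F (x ∘ e)} =
      (Submodule.span K {ξ | ∃ F ∈ I, F.totalDegree < d ∧ ξ = grad F x}).map
        (LinearEquiv.funCongrLeft K K e : (V' → K) →ₗ[K] (V → K)) := by
  rw [Submodule.map_span]
  congr 1
  ext ξ
  constructor
  · rintro ⟨F, hF, hFd, rfl⟩
    refine ⟨grad (rename e F) x, ⟨_, hF, ?_, rfl⟩, ?_⟩
    · exact lt_of_le_of_lt (totalDegree_rename_le e F) hFd
    · rw [grad_rename]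
      rfl
  · rintro ⟨_, ⟨F, hF, hFd, rfl⟩, rfl⟩
    have h1 : rename e (rename e.symm F) = F := by
      rw [rename_rename]
      have : (e ∘ e.symm : V' → V') = id := by ext; simp
      rw [this, rename_id_apply]
    refine ⟨rename e.symm F, ?_, lt_of_le_of_lt (totalDegree_rename_le e.symm F) hFd, ?_⟩
    · rw [Ideal.mem_comap, h1]
      exact hF
    · rw [grad_rename, h1]
      rfl

theorem conormal_comap (I : Ideal (MvPolynomial V' K)) (x : V' → K) :
    conormal (I.comap (rename e : MvPolynomial V K →ₐ[K] MvPolynomial V' K)) (x ∘ e) =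
      (conormal I x).map (LinearEquiv.funCongrLeft K K e : (V' → K) →ₗ[K] (V → K)) := by
  unfold conormal
  rw [Submodule.map_span]
  congr 1
  ext ξ
  constructor
  · rintro ⟨F, hF, rfl⟩
    refine ⟨grad (rename e F) x, ⟨_, hF, rfl⟩, ?_⟩
    rw [grad_rename]
    rfl
  · rintro ⟨_, ⟨F, hF, rfl⟩, rfl⟩
    have h1 : rename e (rename e.symm F) = F := by
      rw [rename_rename]
      have : (e ∘ e.symm : V' → V') = id := by ext; simp
      rw [this, rename_id_apply]
    refine ⟨rename e.symm F, ?_, ?_⟩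
    · rw [Ideal.mem_comap, h1]
      exact hF
    · rw [grad_rename, h1]
      rfl

end ren

/-- The theorem for ideals of `ℂ[x_0, …, x_N]`. -/
theorem main_fin {N r a m : ℕ} (ha : 2 ≤ a) (haN : a ≤ N + 1) (hm : 1 ≤ m)
    (I : Ideal (MvPolynomial (Fin (N + 1)) ℂ)) (hI : I.IsPrime)
    (hhom : ∀ F ∈ I, ∀ d, homogeneousComponent d F ∈ I)
    (hsm : ∀ x ∈ cone I, x ≠ 0 → Module.finrank ℂ (conormal I x) = r)
    (hperm : ∀ s : Equiv.Perm (Fin (N + 1)), (∀ i, a ≤ i.1 → s i = i) →
      ∀ F ∈ I, rename s F ∈ I)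
    (hdiag : ∀ t : Fin (N + 1) → ℂ, (∀ i, i.1 < a → t i ^ m = 1) → (∀ i, a ≤ i.1 → t i = 1) →
      ∀ F ∈ I, aeval (fun i => C (t i) * X i : Fin (N + 1) → MvPolynomial (Fin (N + 1)) ℂ) F ∈ I)
    (h01 : (X 0 - X 1 : MvPolynomial (Fin (N + 1)) ℂ) ∉ I)
    (h0 : 2 ≤ m → (X 0 : MvPolynomial (Fin (N + 1)) ℂ) ∉ I)
    (hcut1 : ∀ x, (∀ F ∈ I, F.totalDegree < m * a → eval x F = 0) → x ∈ cone I)
    (hcut2 : ∀ x ∈ cone I, conormal I x ≤
      Submodule.span ℂ {ξ | ∃ F ∈ I, F.totalDegree < m * a ∧ ξ = grad F x}) :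
    ∃ F : Fin r → MvPolynomial (Fin (N + 1)) ℂ, (∀ i, ∃ d < m * a, (F i).IsHomogeneous d) ∧
      I = Ideal.span (Set.range F) := by
  classical
  obtain ⟨b, hb⟩ : ∃ b, a + b = N + 1 := ⟨N + 1 - a, by omega⟩
  set e : Fin a ⊕ Fin b ≃ Fin (N + 1) := finSumFinEquiv.trans (finCongr hb) with he
  have hel : ∀ i : Fin a, (e (Sum.inl i)).1 = i.1 := fun i => by simp [he]
  have her : ∀ j : Fin b, a ≤ (e (Sum.inr j)).1 := fun j => by simp [he]
  set E : MvPolynomial (Fin a ⊕ Fin b) ℂ →ₐ[ℂ] MvPolynomial (Fin (N + 1)) ℂ := rename e with hE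
  set I' := I.comap E with hI'
  have hI'p : I'.IsPrime := Ideal.comap_isPrime _ _
  have hEX : ∀ k, E (X k) = X (e k) := fun k => by rw [hE, rename_X]
  have hEs : Function.Surjective E := by
    intro F
    refine ⟨rename e.symm F, ?_⟩
    rw [hE, rename_rename]
    have : (e ∘ e.symm : Fin (N + 1) → Fin (N + 1)) = id := by ext; simp
    rw [this, rename_id_apply]
  have hxe : ∀ y : Fin a ⊕ Fin b → ℂ, y = (y ∘ e.symm) ∘ e := fun y => by ext; simp
  -- stability
  have hst : ∀ s : Equiv.Perm (Fin a), ∀ f ∈ I', rho s f ∈ I' := by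
    intro s f hf
    rw [hI', Ideal.mem_comap] at hf ⊢
    set s' : Equiv.Perm (Fin (N + 1)) :=
      (e.symm.trans (Equiv.Perm.sumCongr s (Equiv.refl (Fin b)))).trans e with hs'
    have h1 := hperm s' (fun i hi => by
      obtain ⟨k, rfl⟩ := e.surjective i
      rcases k with k | k
      · rw [hel] at hi
        exact absurd k.2 (by omega)
      · simp [hs']) _ hf
    have h2 : rename s' (E f) = E (rho s f) := by
      have : (rename s' : MvPolynomial (Fin (N + 1)) ℂ →ₐ[ℂ] _).comp E = E.comp (rho s) := by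
        apply MvPolynomial.algHom_ext
        intro k
        rcases k with k | k
        · simp [hE, hs', rho]
        · simp [hE, hs', rho]
      exact congrArg (fun φ => φ f) this
    rw [← h2]
    exact h1
  have hroot : ∀ t : Fin a → ℂ, (∀ i, t i ^ m = 1) → ∀ f ∈ I', scal t f ∈ I' := by
    intro t ht f hf
    rw [hI', Ideal.mem_comap] at hf ⊢
    set t' : Fin (N + 1) → ℂ := fun i => Sum.elim t (fun _ => 1) (e.symm i) with ht'
    have h1 := hdiag t' (fun i hi => by
      obtain ⟨k, rfl⟩ := e.surjective i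
      rcases k with k | k
      · simp [ht', ht]
      · exact absurd (her k) (by omega)) (fun i hi => by
      obtain ⟨k, rfl⟩ := e.surjective i
      rcases k with k | k
      · rw [hel] at hi
        exact absurd k.2 (by omega)
      · simp [ht']) _ hf
    have h2 : aeval (fun i => C (t' i) * X i : Fin (N + 1) → MvPolynomial (Fin (N + 1)) ℂ) (E f) =
        E (scal t f) := by
      have : (aeval (fun i => C (t' i) * X i :
          Fin (N + 1) → MvPolynomial (Fin (N + 1)) ℂ)).comp E = E.comp (scal t) := by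
        apply MvPolynomial.algHom_ext
        intro k
        rw [AlgHom.comp_apply, AlgHom.comp_apply, hEX, aeval_X]
        rcases k with k | k
        · rw [scal_inl, map_mul, hEX, hE, rename_C]
          simp [ht']
        · rw [scal_inr, hEX]
          simp [ht']
      exact congrArg (fun φ => φ f) this
    rw [← h2]
    exact h1
  have hζ : IsPrimitiveRoot (Complex.exp (2 * Real.pi * Complex.I / (m * a : ℕ))) (m * a) :=
    Complex.isPrimitiveRoot_exp (m * a) (by positivity)
  have hη : IsPrimitiveRoot (Complex.exp (2 * Real.pi * Complex.I / (m : ℕ))) m :=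
    Complex.isPrimitiveRoot_exp m (by positivity)
  set η := Complex.exp (2 * Real.pi * Complex.I / (m : ℕ)) with hηdef
  -- the first two coordinates
  have he0 : e (Sum.inl ⟨0, by omega⟩) = 0 := Fin.ext (by rw [hel]; rfl)
  have he1 : e (Sum.inl ⟨1, by omega⟩) = 1 := Fin.ext (by
    rw [hel]
    have : ((1 : Fin (N + 1)) : ℕ) = 1 := by
      rw [Fin.val_one']
      exact Nat.mod_eq_of_lt (by omega)
    rw [this])
  have hX : 1 < m → ∀ i, (X (Sum.inl i) : MvPolynomial (Fin a ⊕ Fin b) ℂ) ∉ I' := by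
    intro hm1 i hi
    apply h0 hm1
    have h1 := hst (Equiv.swap i ⟨0, by omega⟩) _ hi
    rw [rho_inl, Equiv.swap_apply_left, hI', Ideal.mem_comap, hEX, he0] at h1
    exact h1
  have hdiff : ∀ i j : Fin a, i ≠ j →
      (X (Sum.inl j) - X (Sum.inl i) : MvPolynomial (Fin a ⊕ Fin b) ℂ) ∉ I' := by
    intro i j hij h
    apply h01
    -- move `j` to `0` and `i` to `1`
    obtain ⟨s, hs0, hs1⟩ : ∃ s : Equiv.Perm (Fin a), s j = ⟨0, by omega⟩ ∧ s i = ⟨1, by omega⟩ := by
      set s1 := Equiv.swap j (⟨0, by omega⟩ : Fin a) with hs1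
      refine ⟨(Equiv.swap (s1 i) ⟨1, by omega⟩) * s1, ?_, ?_⟩
      · rw [Equiv.Perm.mul_apply, hs1, Equiv.swap_apply_left]
        apply Equiv.swap_apply_of_ne_of_ne
        · intro h2
          apply hij
          have h3 : s1 j = s1 i := by rw [hs1, Equiv.swap_apply_left]; exact h2
          exact (s1.injective h3).symm
        · intro h2
          have := congrArg Fin.val h2
          simp at this
      · rw [Equiv.Perm.mul_apply, Equiv.swap_apply_left]
    have h1 := hst s _ h
    rw [map_sub, rho_inl, rho_inl, hs0, hs1, hI', Ideal.mem_comap, map_sub, hEX, hEX, he0, he1] at h1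
    exact h1
  have hXX : ∀ i j : Fin a, i ≠ j →
      (X (Sum.inl j) ^ m - X (Sum.inl i) ^ m : MvPolynomial (Fin a ⊕ Fin b) ℂ) ∉ I' := by
    intro i j hij h
    have hmz : NeZero m := ⟨by omega⟩
    have hCη : IsPrimitiveRoot (C η : MvPolynomial (Fin a ⊕ Fin b) ℂ) m :=
      hη.map_of_injective (C_injective _ _)
    rw [hCη.pow_sub_pow_eq_prod_sub_mul _ _ (by omega), hI'p.prod_mem_iff] at h
    obtain ⟨ξ, hξ, h⟩ := h
    rw [Polynomial.mem_nthRootsFinset (by omega)] at hξ
    obtain ⟨c, hc, hcξ⟩ := hCη.eq_pow_of_pow_eq_one hξ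
    have hηm : η ^ m = 1 := hη.pow_eq_one
    -- scale the coordinate `i`
    have h1 := hroot (fun l => if l = i then η ^ (m * c - c) else 1) (fun l => by
      by_cases hl : l = i
      · rw [if_pos hl, ← pow_mul, mul_comm, pow_mul, hηm, one_pow]
      · rw [if_neg hl, one_pow]) _ h
    rw [map_sub, map_mul, scal_inl, scal_inl, if_neg (Ne.symm hij), if_pos rfl, C_1, one_mul,
      ← hcξ, ← C_pow, scal_C, ← mul_assoc, ← C_mul, ← pow_add] at h1
    have h2 : c + (m * c - c) = m * c := by
      have : c ≤ m * c := Nat.le_mul_of_pos_left c (by omega)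
      omega
    rw [h2, pow_mul, hηm, one_pow, C_1, one_mul] at h1
    exact hdiff i j hij h1
  obtain ⟨c, hc1, -, hc3⟩ := main_sum I' (fun F hF d => by
      rw [hI', Ideal.mem_comap] at hF ⊢
      rw [hE, rename_homogeneousComponent]
      exact hhom _ hF d) (m := m) (by omega) ha (r := r) (fun y hy hy0 => by
      rw [hxe y] at hy ⊢
      rw [hI', hE, conormal_comap]
      rw [hI', hE, mem_cone_comap] at hy
      have h1 := hsm _ hy (fun h => hy0 (by rw [hxe y, h]; rfl))
      rw [← h1]
      exact LinearEquiv.finrank_map_eq (LinearEquiv.funCongrLeft ℂ ℂ e) _)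
    hst hroot hX hXX hζ (fun y hy => by
      rw [hxe y, hI', hE, mem_cone_comap]
      apply hcut1
      intro F hF hFd
      have h1 := hy (rename e.symm F) (by
        rw [hI', Ideal.mem_comap, hE, rename_rename]
        have : (e ∘ e.symm : Fin (N + 1) → Fin (N + 1)) = id := by ext; simp
        rw [this, rename_id_apply]
        exact hF) (lt_of_le_of_lt (totalDegree_rename_le e.symm F) hFd)
      rwa [eval_rename] at h1) (fun y hy => by
      rw [hxe y] at hy ⊢
      rw [hI', hE, conormal_comap, span_comap]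
      rw [hI', hE, mem_cone_comap] at hy
      exact Submodule.map_mono (hcut2 _ hy))
  refine ⟨fun i => E (c i), fun i => ?_, ?_⟩
  · obtain ⟨d, hd, hdc⟩ := hc1 i
    exact ⟨d, hd, hdc.rename_isHomogeneous⟩
  · have h1 : I = I'.map E := (Ideal.map_comap_of_surjective _ hEs I).symm
    rw [h1, hc3, Ideal.map_span, ← Set.range_comp]
    rfl

end Pool.Agent.W467.Sym
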