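import Mathlib

/-!
Prime ideals which are stable under permutations of variables: generation by symmetric elements.
-/

set_option autoImplicit false

namespace Pool.Agent.W467.Sym

open MvPolynomial

section dvd

variable {K V : Type*} [Field K] [DecidableEq V]

/-- the substitution `X j ↦ X i` -/
noncomputable def th (i j : V) : MvPolynomial V K →ₐ[K] MvPolynomial V K :=
  aeval fun l => if l = j then X i else X l

theorem th_X (i j l : V) : th (K := K) i j (X l) = if l = j then X i else X l := by
  simp [th]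

theorem dvd_sub_th (i j : V) (P : MvPolynomial V K) :
    (X j - X i : MvPolynomial V K) ∣ P - th i j P := by
  induction P using MvPolynomial.induction_on with
  | C c =>
    have : th i j (C c) = (C c : MvPolynomial V K) := by
      rw [← algebraMap_eq, AlgHom.commutes]
    rw [this, sub_self]
    exact dvd_zero _
  | add p q hp hq =>
    rw [map_add]
    have : p + q - (th i j p + th i j q) = (p - th i j p) + (q - th i j q) := by ring
    rw [this]
    exact dvd_add hp hq
  | mul_X p l hp =>
    rw [map_mul, th_X]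
    by_cases hl : l = j
    · rw [if_pos hl, hl]
      have : p * X j - th i j p * X i = (p - th i j p) * X j + th i j p * (X j - X i) := by ring
      rw [this]
      exact dvd_add (hp.mul_right _) (dvd_mul_left _ _)
    · rw [if_neg hl]
      have : p * X l - th i j p * X l = (p - th i j p) * X l := by ring
      rw [this]
      exact hp.mul_right _

theorem dvd_iff_th (i j : V) (P : MvPolynomial V K) :
    (X j - X i : MvPolynomial V K) ∣ P ↔ th i j P = 0 := by
  constructor
  · rintro ⟨q, rfl⟩
    rw [map_mul, map_sub, th_X, th_X, if_pos rfl]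
    by_cases h : i = j
    · rw [if_pos h]; ring
    · rw [if_neg h]; ring
  · intro h
    have := dvd_sub_th i j P
    rwa [h, sub_zero] at this

omit [DecidableEq V] in
theorem X_sub_ne_zero {i j : V} (h : i ≠ j) : (X j - X i : MvPolynomial V K) ≠ 0 := by
  rw [sub_ne_zero]
  intro h1
  exact h ((X_injective (R := K)) h1).symm

theorem prime_X_sub {i j : V} (h : i ≠ j) : Prime (X j - X i : MvPolynomial V K) := by
  refine ⟨X_sub_ne_zero h, ?_, ?_⟩
  · intro h1
    have h2 : (X j - X i : MvPolynomial V K) ∣ 1 := h1.dvd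
    rw [dvd_iff_th, map_one] at h2
    exact one_ne_zero h2
  · intro p q hpq
    rw [dvd_iff_th, map_mul] at hpq
    rw [dvd_iff_th, dvd_iff_th]
    exact mul_eq_zero.1 hpq

/-- antisymmetric polynomials are divisible by the differences of the variables -/
theorem dvd_of_swap [CharZero K] (i j : V) (P : MvPolynomial V K)
    (h : rename (Equiv.swap i j) P = -P) : (X j - X i : MvPolynomial V K) ∣ P := by
  rw [dvd_iff_th]
  have h1 : (th (K := K) i j).comp (rename (Equiv.swap i j)) = th i j := by
    apply MvPolynomial.algHom_ext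
    intro l
    rw [AlgHom.comp_apply, rename_X, th_X, th_X]
    by_cases h1 : l = i
    · subst h1
      rw [Equiv.swap_apply_left, if_pos rfl]
      by_cases h2 : l = j
      · rw [if_pos h2]
      · rw [if_neg h2]
    · by_cases h2 : l = j
      · subst h2
        rw [Equiv.swap_apply_right, if_pos rfl]
        by_cases h3 : i = l
        · rw [if_pos h3]
        · rw [if_neg h3]
      · rw [Equiv.swap_apply_of_ne_of_ne h1 h2]
  have h2 := congrArg (fun f => f P) h1
  simp only [AlgHom.comp_apply, h, map_neg] at h2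
  have h3 : (2 : MvPolynomial V K) * th i j P = 0 := by linear_combination -h2
  have h4 : (2 : MvPolynomial V K) ≠ 0 := by
    have : (2 : MvPolynomial V K) = C 2 := by rw [map_ofNat]
    rw [this]
    intro h5
    exact two_ne_zero ((C_eq_zero).1 h5)
  exact (mul_eq_zero.1 h3).resolve_left h4

end dvd

section perm

variable {K : Type*} [Field K] {a : ℕ} {τ : Type*}

/-- the action of permutations of the first group of variables -/
noncomputable def rho (s : Equiv.Perm (Fin a)) :
    MvPolynomial (Fin a ⊕ τ) K →ₐ[K] MvPolynomial (Fin a ⊕ τ) K :=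
  rename (Equiv.Perm.sumCongr s (Equiv.refl τ))

@[simp] theorem rho_inl (s : Equiv.Perm (Fin a)) (i : Fin a) :
    rho s (X (Sum.inl i) : MvPolynomial (Fin a ⊕ τ) K) = X (Sum.inl (s i)) := by
  simp [rho]

@[simp] theorem rho_inr (s : Equiv.Perm (Fin a)) (i : τ) :
    rho s (X (Sum.inr i) : MvPolynomial (Fin a ⊕ τ) K) = X (Sum.inr i) := by
  simp [rho]

theorem rho_mul (s t : Equiv.Perm (Fin a)) (f : MvPolynomial (Fin a ⊕ τ) K) :
    rho (s * t) f = rho s (rho t f) := by
  have : (rho (s * t) : MvPolynomial (Fin a ⊕ τ) K →ₐ[K] _) = (rho s).comp (rho t) := by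
    apply MvPolynomial.algHom_ext
    rintro (i | i) <;> simp
  rw [this]
  rfl

@[simp] theorem rho_one (f : MvPolynomial (Fin a ⊕ τ) K) : rho 1 f = f := by
  have : (rho 1 : MvPolynomial (Fin a ⊕ τ) K →ₐ[K] _) = AlgHom.id K _ := by
    apply MvPolynomial.algHom_ext
    rintro (i | i) <;> simp
  rw [this]
  rfl

/-- the Vandermonde determinant -/
noncomputable def vdm (K : Type*) [Field K] (a : ℕ) (τ : Type*) : MvPolynomial (Fin a ⊕ τ) K :=
  (Matrix.vandermonde fun i : Fin a => (X (Sum.inl i) : MvPolynomial (Fin a ⊕ τ) K)).det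

theorem rho_vdm (s : Equiv.Perm (Fin a)) :
    rho s (vdm K a τ) = (Equiv.Perm.sign s : ℤ) • vdm K a τ := by
  unfold vdm
  rw [AlgHom.map_det]
  have : (rho s).mapMatrix
      (Matrix.vandermonde fun i : Fin a => (X (Sum.inl i) : MvPolynomial (Fin a ⊕ τ) K)) =
      (Matrix.vandermonde fun i : Fin a => (X (Sum.inl i) : MvPolynomial (Fin a ⊕ τ) K)).submatrix
        s id := by
    ext i j
    simp [Matrix.vandermonde_apply]
  rw [this, Matrix.det_permute, zsmul_eq_mul]

theorem vdm_eq : vdm K a τ = ∏ p ∈ (Finset.univ : Finset (Fin a)).sigma fun i => Finset.Ioi i,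
    (X (Sum.inl p.2) - X (Sum.inl p.1)) := by
  unfold vdm
  rw [Matrix.det_vandermonde, Finset.prod_sigma']

theorem vdm_ne_zero : vdm K a τ ≠ 0 := by
  classical
  rw [vdm_eq, Finset.prod_ne_zero_iff]
  rintro ⟨i, j⟩ hp
  simp only [Finset.mem_sigma, Finset.mem_univ, Finset.mem_Ioi, true_and] at hp
  exact X_sub_ne_zero fun h => hp.ne (Sum.inl_injective h)

theorem vdm_dvd [CharZero K] (P : MvPolynomial (Fin a ⊕ τ) K)
    (h : ∀ s : Equiv.Perm (Fin a), rho s P = (Equiv.Perm.sign s : ℤ) • P) : vdm K a τ ∣ P := by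
  classical
  rw [vdm_eq]
  refine Finset.prod_dvd_of_isRelPrime ?_ ?_
  · rintro ⟨i, j⟩ hp ⟨k, l⟩ hq hpq
    simp only [Finset.coe_sigma, Finset.coe_univ, Finset.coe_Ioi, Set.mem_sigma_iff, Set.mem_univ,
      Set.mem_Ioi, true_and] at hp hq
    have h1 : (Sum.inl i : Fin a ⊕ τ) ≠ Sum.inl j := fun h => hp.ne (Sum.inl_injective h)
    have h2 := (prime_X_sub (K := K) h1).irreducible
    change IsRelPrime (X (Sum.inl j) - X (Sum.inl i) : MvPolynomial (Fin a ⊕ τ) K)
      (X (Sum.inl l) - X (Sum.inl k))
    rw [h2.isRelPrime_iff_not_dvd, dvd_iff_th, map_sub, th_X, th_X, sub_eq_zero]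
    intro h3
    split_ifs at h3 with h4 h5 h6
    · exact hq.ne ((Sum.inl_injective h5).trans (Sum.inl_injective h4).symm)
    · have h7 := Sum.inl_injective (X_injective (R := K) h3)
      have h8 := Sum.inl_injective h4
      subst h7 h8
      exact hpq rfl
    · have h7 := Sum.inl_injective (X_injective (R := K) h3)
      have h8 := Sum.inl_injective h6
      subst h7 h8
      exact absurd (hq.trans hp) (lt_irrefl _)
    · exact hq.ne (Sum.inl_injective (X_injective (R := K) h3)).symm
  · rintro ⟨i, j⟩ hp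
    simp only [Finset.mem_sigma, Finset.mem_univ, Finset.mem_Ioi, true_and] at hp
    apply dvd_of_swap
    have h1 := h (Equiv.swap i j)
    rw [Equiv.Perm.sign_swap hp.ne] at h1
    unfold rho at h1
    rw [Equiv.Perm.sumCongr_swap_refl] at h1
    rw [h1]
    simp

/-- the symmetric polynomials -/
def IsSym (f : MvPolynomial (Fin a ⊕ τ) K) : Prop := ∀ s : Equiv.Perm (Fin a), rho s f = f

theorem isSym_of_mul_vdm {s₀ P : MvPolynomial (Fin a ⊕ τ) K} (hP : P = vdm K a τ * s₀)
    (h : ∀ s : Equiv.Perm (Fin a), rho s P = (Equiv.Perm.sign s : ℤ) • P) : IsSym s₀ := by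
  intro s
  have h1 := h s
  rw [hP, map_mul, rho_vdm] at h1
  have h2 : vdm K a τ * rho s s₀ = vdm K a τ * s₀ := by
    rcases Int.units_eq_one_or (Equiv.Perm.sign s) with h3 | h3
    · rw [h3] at h1; simpa using h1
    · rw [h3] at h1; simpa using h1
  exact mul_left_cancel₀ vdm_ne_zero h2

/-- A prime ideal which is stable under the permutations of the variables `X (inl i)` and does not
contain the Vandermonde determinant is generated by symmetric polynomials. -/
theorem span_sym [CharZero K] (I : Ideal (MvPolynomial (Fin a ⊕ τ) K)) [hI : I.IsPrime]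
    (hst : ∀ s : Equiv.Perm (Fin a), ∀ f ∈ I, rho s f ∈ I) (hvdm : vdm K a τ ∉ I) :
    I = Ideal.span {f | f ∈ I ∧ IsSym f} := by
  classical
  apply le_antisymm
  swap
  · rw [Ideal.span_le]
    exact fun f hf => hf.1
  intro f hf
  set prs := (Finset.univ : Finset (Fin a)).sigma fun i => Finset.Ioi i with hprs
  set Φ : MvPolynomial (Fin a ⊕ τ) K → MvPolynomial (Fin a ⊕ τ) K := fun v =>
    ∑ s : Equiv.Perm (Fin a), (Equiv.Perm.sign s : ℤ) • rho s (f * v) with hΦ
  have hΦI : ∀ v, Φ v ∈ I := fun v => I.sum_mem fun s _ =>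
    zsmul_mem (hst s _ (I.mul_mem_right _ hf)) _
  have hΦalt : ∀ v, ∀ s : Equiv.Perm (Fin a), rho s (Φ v) = (Equiv.Perm.sign s : ℤ) • Φ v := by
    intro v s
    simp only [hΦ]
    rw [map_sum, Finset.smul_sum]
    refine Fintype.sum_equiv (Equiv.mulLeft s) _ _ fun t => ?_
    rw [map_zsmul, ← rho_mul, Equiv.coe_mulLeft, smul_smul, map_mul]
    congr 1
    have h1 : ((Equiv.Perm.sign s : ℤˣ) : ℤ) * ((Equiv.Perm.sign s : ℤˣ) : ℤ) = 1 := by
      rw [← Units.val_mul, Int.units_mul_self, Units.val_one]
    rw [Equiv.Perm.sign_mul, Units.val_mul, ← mul_assoc, h1, one_mul]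
  have hex : ∀ v, ∃ s₀, s₀ ∈ I ∧ IsSym s₀ ∧ Φ v = vdm K a τ * s₀ := by
    intro v
    obtain ⟨s₀, hs₀⟩ := vdm_dvd (Φ v) (hΦalt v)
    refine ⟨s₀, ?_, isSym_of_mul_vdm hs₀ (hΦalt v), hs₀⟩
    have h1 := hΦI v
    rw [hs₀] at h1
    exact (hI.mem_or_mem h1).resolve_left hvdm
  choose g hgI hgS hg using hex
  -- the identity
  have key : f * vdm K a τ = ∑ t ∈ prs.powerset,
      (∏ p ∈ prs \ t, (-X (Sum.inl p.1))) * Φ (∏ p ∈ t, X (Sum.inl p.2)) := by
    have h1 : f * vdm K a τ = ∑ s : Equiv.Perm (Fin a), (Equiv.Perm.sign s : ℤ) •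
        (rho s f * ∏ p ∈ prs, (X (Sum.inl (s p.2)) + -X (Sum.inl p.1))) := by
      rw [Finset.sum_eq_single (1 : Equiv.Perm (Fin a))]
      · rw [vdm_eq]
        simp [sub_eq_add_neg, hprs]
      · intro s _ hs
        obtain ⟨j, hj⟩ : ∃ j, s j < j := by
          by_contra hcon
          push Not at hcon
          apply hs
          -- a permutation with `j ≤ s j` for all `j`
          ext j
          simp only [Equiv.Perm.coe_one, id_eq]
          congr 1
          have h2 : ∀ n : ℕ, ∀ j : Fin a, a - j.1 = n → s j = j := by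
            intro n
            induction n using Nat.strong_induction_on with
            | _ n ih =>
              intro j hj
              rcases (hcon j).lt_or_eq with h3 | h3
              · have h4 : s (s j) = s j := ih (a - (s j).1) (by
                  have := (s j).2
                  have h5 : j.1 < (s j).1 := h3
                  omega) (s j) rfl
                exact absurd (s.injective h4) h3.ne'
              · exact h3.symm
          exact h2 _ j rfl
        have h2 : (⟨s j, j⟩ : (_ : Fin a) × Fin a) ∈ prs := by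
          simp only [hprs, Finset.mem_sigma, Finset.mem_univ, Finset.mem_Ioi, true_and]
          exact hj
        rw [Finset.prod_eq_zero h2 (by simp), mul_zero, smul_zero]
      · intro h; exact absurd (Finset.mem_univ _) h
    rw [h1]
    have h2 : ∀ s : Equiv.Perm (Fin a), (Equiv.Perm.sign s : ℤ) •
        (rho s f * ∏ p ∈ prs, (X (Sum.inl (s p.2)) + -X (Sum.inl p.1))) =
        ∑ t ∈ prs.powerset, (∏ p ∈ prs \ t, (-X (Sum.inl p.1))) *
          ((Equiv.Perm.sign s : ℤ) • rho s (f * ∏ p ∈ t, X (Sum.inl p.2))) := by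
      intro s
      rw [Finset.prod_add, Finset.mul_sum, Finset.smul_sum]
      refine Finset.sum_congr rfl fun t _ => ?_
      rw [map_mul, map_prod]
      simp only [rho_inl, mul_smul_comm]
      congr 1
      ring
    rw [Finset.sum_congr rfl fun s _ => h2 s, Finset.sum_comm]
    refine Finset.sum_congr rfl fun t _ => ?_
    rw [← Finset.mul_sum]
  have key2 : f = ∑ t ∈ prs.powerset,
      (∏ p ∈ prs \ t, (-X (Sum.inl p.1))) * g (∏ p ∈ t, X (Sum.inl p.2)) := by
    apply mul_right_cancel₀ (vdm_ne_zero (K := K) (a := a) (τ := τ))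
    rw [key, Finset.sum_mul]
    refine Finset.sum_congr rfl fun t _ => ?_
    rw [hg]
    ring
  rw [key2]
  exact Ideal.sum_mem _ fun t _ => Ideal.mul_mem_left _ _ (Ideal.subset_span ⟨hgI _, hgS _⟩)

end perm

end Pool.Agent.W467.Sym
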