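import Pool.Agent.W467.Sym.Grad

/-!
Symmetric smooth varieties which are cut out in low degree.
-/

set_option autoImplicit false

namespace Pool.Agent.W467.Sym

open MvPolynomial

section linear

variable {K : Type*} [Field K]

/-- Step D: complementary coordinates -/
theorem exists_compl {V : Type*} [Fintype V] [DecidableEq V] {r : ℕ} (L : Fin r → V → K)
    (hL : LinearIndependent K L) : ∃ (n' : ℕ) (w : Fin n' → V), r + n' = Fintype.card V ∧
      ∀ k : V, ∃ (α : Fin r → K) (β : Fin n' → K),
        (Pi.single k 1 : V → K) = ∑ i, α i • L i + ∑ j, β j • Pi.single (w j) 1 := by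
  classical
  set U := Submodule.span K (Set.range L) with hU
  set s : Set ((V → K) ⧸ U) := Set.range fun k : V => U.mkQ (Pi.single k 1) with hs
  have hspan : Submodule.span K s = ⊤ := by
    rw [eq_top_iff]
    intro y _
    obtain ⟨x, rfl⟩ := U.mkQ_surjective y
    have hx : x = ∑ k, x k • (Pi.single k 1 : V → K) := by
      ext l
      simp [Pi.single_apply]
    rw [hx, map_sum]
    refine Submodule.sum_mem _ fun k _ => ?_
    rw [map_smul]
    exact Submodule.smul_mem _ _ (Submodule.subset_span ⟨k, rfl⟩)
  obtain ⟨f, hf, hfs, -⟩ := Submodule.exists_fun_fin_finrank_span_eq K s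
  have hfs' : Submodule.span K (Set.range f) = ⊤ := hfs.trans hspan
  choose w hw using hf
  refine ⟨_, w, ?_, ?_⟩
  · rw [hspan, finrank_top]
    have h1 := Submodule.finrank_quotient_add_finrank U
    have h2 : Module.finrank K U = r := by
      rw [hU, finrank_span_eq_card hL, Fintype.card_fin]
    rw [h2, Module.finrank_fintype_fun_eq_card] at h1
    omega
  · intro k
    have h1 : U.mkQ (Pi.single k 1) ∈ Submodule.span K (Set.range f) := by rw [hfs']; trivial
    obtain ⟨β, hβ⟩ := (Submodule.mem_span_range_iff_exists_fun K).1 h1
    have h2 : (Pi.single k 1 : V → K) - ∑ j, β j • Pi.single (w j) 1 ∈ U := by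
      have h3 : U.mkQ ((Pi.single k 1 : V → K) - ∑ j, β j • Pi.single (w j) 1) = 0 := by
        rw [map_sub, map_sum, ← hβ, sub_eq_zero]
        refine Finset.sum_congr rfl fun j _ => ?_
        rw [map_smul, ← hw j]
      rwa [Submodule.mkQ_apply, Submodule.Quotient.mk_eq_zero] at h3
    obtain ⟨α, hα⟩ := (Submodule.mem_span_range_iff_exists_fun K).1 h2
    exact ⟨α, β, by rw [hα]; ring⟩

end linear

section elim

variable {K : Type*} [Field K] {V : Type*} [DecidableEq V]

/-- Step E: elimination of variables -/
theorem elim (wgt : V → ℕ) (hwgt : ∀ k, 0 < wgt k) {r : ℕ} (P : Fin r → MvPolynomial V K)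
    (e : Fin r → ℕ) (hP : ∀ i, IsWeightedHomogeneous wgt (P i) (e i)) {n' : ℕ} (w : Fin n' → V)
    (hw : ∀ k : V, ∃ (α : Fin r → K) (β : Fin n' → K), (Pi.single k 1 : V → K) =
      ∑ i, α i • (fun l => coeff (Finsupp.single l 1) (P i)) + ∑ j, β j • Pi.single (w j) 1)
    (Q : MvPolynomial V K) :
    ∃ R : MvPolynomial (Fin n') K, Q - aeval (fun j => (X (w j) : MvPolynomial V K)) R ∈
      Ideal.span (Set.range P) := by
  classical
  set q := Ideal.Quotient.mkₐ K (Ideal.span (Set.range P)) with hq
  set B : Subalgebra K (MvPolynomial V K) :=
    ((q.comp (aeval fun j => (X (w j) : MvPolynomial V K))).range).comap q with hB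
  have hmem : ∀ Q : MvPolynomial V K, Q ∈ B → ∃ R : MvPolynomial (Fin n') K,
      Q - aeval (fun j => (X (w j) : MvPolynomial V K)) R ∈ Ideal.span (Set.range P) := by
    intro Q hQ
    obtain ⟨R, hR⟩ := hQ
    refine ⟨R, ?_⟩
    rw [← Ideal.Quotient.eq]
    exact hR.symm
  have hPB : ∀ i, P i ∈ B := by
    intro i
    refine ⟨0, ?_⟩
    rw [map_zero]
    symm
    exact Ideal.Quotient.eq_zero_iff_mem.2 (Ideal.subset_span ⟨i, rfl⟩)
  have hXw : ∀ j, X (w j) ∈ B := fun j => ⟨X j, by simp⟩
  have hCB : ∀ c : K, C c ∈ B := fun c => B.algebraMap_mem c
  have hX : ∀ k, X k ∈ B := by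
    intro k
    induction hd : wgt k using Nat.strong_induction_on generalizing k with
    | _ d ih =>
      obtain ⟨α, β, hαβ⟩ := hw k
      set H : MvPolynomial V K := X k - ∑ i with e i = d, C (α i) * P i -
        ∑ j with wgt (w j) = d, C (β j) * X (w j) with hH
      have hHw : IsWeightedHomogeneous wgt H d := by
        refine IsWeightedHomogeneous.sub (IsWeightedHomogeneous.sub ?_ ?_) ?_
        · rw [← hd]; exact isWeightedHomogeneous_X _ _ _
        · refine IsWeightedHomogeneous.sum _ _ _ fun i hi => ?_
          rw [Finset.mem_filter] at hi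
          rw [← hi.2]
          exact (hP i).C_mul _
        · refine IsWeightedHomogeneous.sum _ _ _ fun j hj => ?_
          rw [Finset.mem_filter] at hj
          have := (isWeightedHomogeneous_X K wgt (w j)).C_mul (β j)
          rwa [hj.2] at this
      have hH0 : ∀ l, coeff (Finsupp.single l 1) H = 0 := by
        intro l
        by_cases hl : wgt l = d
        · have h1 := congrFun hαβ l
          simp only [Pi.add_apply, Finset.sum_apply, Pi.smul_apply, smul_eq_mul] at h1
          rw [hH, coeff_sub, coeff_sub, coeff_sum, coeff_sum]
          simp only [coeff_C_mul]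
          have h2 : ∑ i with e i = d, α i * coeff (Finsupp.single l 1) (P i) =
              ∑ i, α i * coeff (Finsupp.single l 1) (P i) := by
            refine Finset.sum_subset (Finset.subset_univ _) fun i _ hi => ?_
            rw [Finset.mem_filter] at hi
            have h3 : coeff (Finsupp.single l 1) (P i) = 0 := by
              by_contra h4
              apply hi
              refine ⟨Finset.mem_univ _, ?_⟩
              rw [← hP i h4, Finsupp.weight_single, one_smul, hl]
            rw [h3, mul_zero]
          have h3 : ∑ j with wgt (w j) = d, β j * coeff (Finsupp.single l 1)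
              (X (w j) : MvPolynomial V K) =
              ∑ j, β j * (Pi.single (w j) 1 : V → K) l := by
            rw [Finset.sum_filter]
            refine Finset.sum_congr rfl fun j _ => ?_
            by_cases h4 : w j = l
            · rw [h4, if_pos hl, coeff_X, if_pos rfl, Pi.single_eq_same]
            · have e1 : coeff (Finsupp.single l 1) (X (w j) : MvPolynomial V K) = 0 := by
                rw [coeff_X, if_neg (fun h5 => h4 ((Finsupp.single_left_injective one_ne_zero) h5))]
              have e2 : (Pi.single (w j) 1 : V → K) l = 0 := Pi.single_eq_of_ne (Ne.symm h4) 1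
              rw [e1, e2, mul_zero, ite_self]
          have h5 : coeff (Finsupp.single l 1) (X k : MvPolynomial V K) =
              (Pi.single k 1 : V → K) l := by
            by_cases h4 : k = l
            · rw [h4, coeff_X, if_pos rfl, Pi.single_eq_same]
            · have e1 : coeff (Finsupp.single l 1) (X k : MvPolynomial V K) = 0 := by
                rw [coeff_X, if_neg (fun h5 => h4 ((Finsupp.single_left_injective one_ne_zero) h5))]
              have e2 : (Pi.single k 1 : V → K) l = 0 := Pi.single_eq_of_ne (Ne.symm h4) 1
              rw [e1, e2]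
          rw [h2, h3, h5, h1]
          ring
        · by_contra h1
          apply hl
          rw [← hHw h1, Finsupp.weight_single, one_smul]
      have hHB : H ∈ B := by
        rw [H.as_sum]
        refine Subalgebra.sum_mem _ fun u hu => ?_
        rw [monomial_eq]
        refine Subalgebra.mul_mem _ (hCB _) ?_
        unfold Finsupp.prod
        refine Subalgebra.prod_mem _ fun l hl => Subalgebra.pow_mem _ ?_ _
        have hu1 := hHw (mem_support_iff.1 hu)
        refine ih (wgt l) ?_ l rfl
        -- the weight of `l` is smaller
        by_contra hlt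
        push Not at hlt
        apply mem_support_iff.1 hu
        have h2 : u = Finsupp.single l 1 := by
          have h3 : Finsupp.single l 1 ≤ u := by
            rw [Finsupp.single_le_iff]
            exact Nat.one_le_iff_ne_zero.2 (Finsupp.mem_support_iff.1 hl)
          have h4 : u = Finsupp.single l 1 + (u - Finsupp.single l 1) :=
            (add_tsub_cancel_of_le h3).symm
          have h5 : Finsupp.weight wgt (u - Finsupp.single l 1) = 0 := by
            have h6 := hu1
            rw [h4, map_add, Finsupp.weight_single, one_smul] at h6
            omega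
          have h7 : u - Finsupp.single l 1 = 0 := by
            ext j
            by_contra h8
            have h10 := Finsupp.le_weight_of_ne_zero' wgt (s := j) (f := u - Finsupp.single l 1) h8
            have h11 := hwgt j
            omega
          rw [h4, h7, add_zero]
        rw [h2]
        exact hH0 l
      have h1 : X k = H + ∑ i with e i = d, C (α i) * P i +
          ∑ j with wgt (w j) = d, C (β j) * X (w j) := by rw [hH]; ring
      rw [h1]
      refine Subalgebra.add_mem _ (Subalgebra.add_mem _ hHB ?_) ?_
      · exact Subalgebra.sum_mem _ fun i _ => Subalgebra.mul_mem _ (hCB _) (hPB i)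
      · exact Subalgebra.sum_mem _ fun j _ => Subalgebra.mul_mem _ (hCB _) (hXw j)
  apply hmem
  induction Q using MvPolynomial.induction_on with
  | C c => exact hCB c
  | add p q hp hq => exact Subalgebra.add_mem _ hp hq
  | mul_X p k hp => exact Subalgebra.mul_mem _ hp (hX k)

end elim

end Pool.Agent.W467.Sym
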