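import Pool.Agent.W467.Sym.Main

/-!
Symmetric smooth varieties which are cut out in low degree.
-/

set_option autoImplicit false

namespace Pool.Agent.W467.Sym

open MvPolynomial

variable {K : Type*} [Field K] {a : ℕ} {τ : Type*}

theorem pw_rho (m : ℕ) (s : Equiv.Perm (Fin a)) (f : MvPolynomial (Fin a ⊕ τ) K) :
    pw m (rho s f) = rho s (pw m f) := by
  have : (pw m).comp (rho s) = (rho s).comp (pw m : MvPolynomial (Fin a ⊕ τ) K →ₐ[K] _) := by
    apply MvPolynomial.algHom_ext
    rintro (i | j) <;> simp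
  exact congrArg (fun φ => φ f) this

theorem pw_vdm (m : ℕ) : pw m (vdm K a τ) = ∏ p ∈ (Finset.univ : Finset (Fin a)).sigma
    fun i => Finset.Ioi i, (X (Sum.inl p.2) ^ m - X (Sum.inl p.1) ^ m) := by
  rw [vdm_eq, map_prod]
  simp only [map_sub, pw_inl]

variable [Fintype τ]

/-- the constant term -/
theorem eval_low {m : ℕ} (ha : 0 < a)
    {γ : Fin a ⊕ τ → K} (hγ : ∀ k, k ≠ Sum.inl ⟨a - 1, by omega⟩ → γ k = 0)
    {P : MvPolynomial (Fin a ⊕ τ) K} {n : ℕ} (hP : IsWeightedHomogeneous (wt a τ m) P n)
    (hn : n < m * a) (hn0 : 0 < n) : eval γ P = 0 := by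
  classical
  conv_lhs => rw [P.as_sum]
  rw [map_sum]
  refine Finset.sum_eq_zero fun u hu => ?_
  rw [eval_monomial]
  have hw := hP (mem_support_iff.1 hu)
  obtain ⟨j, hj⟩ : ∃ j, u j ≠ 0 := by
    by_contra hcon
    push Not at hcon
    have : u = 0 := by ext j; exact hcon j
    rw [this, map_zero] at hw
    omega
  have hjl : j ≠ Sum.inl ⟨a - 1, by omega⟩ := by
    intro h5
    have h6 := Finsupp.le_weight_of_ne_zero' (wt a τ m) hj
    rw [hw, h5] at h6
    simp only [wt, Sum.elim_inl] at h6
    have h7 : a - 1 + 1 = a := by omega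
    rw [h7] at h6
    omega
  have h8 : u.prod (fun i e => γ i ^ e) = 0 := by
    rw [Finsupp.prod]
    refine Finset.prod_eq_zero (Finsupp.mem_support_iff.2 hj) ?_
    rw [hγ j hjl, zero_pow hj]
  rw [h8, mul_zero]

/-- Step 0: generation by polynomials in the generators -/
theorem span_psi [CharZero K] (I : Ideal (MvPolynomial (Fin a ⊕ τ) K)) [hI : I.IsPrime]
    {m : ℕ} (hm : 0 < m) {η : K} (hη : IsPrimitiveRoot η m)
    (hst : ∀ s : Equiv.Perm (Fin a), ∀ f ∈ I, rho s f ∈ I)
    (hroot : ∀ t : Fin a → K, (∀ i, t i ^ m = 1) → ∀ f ∈ I, scal t f ∈ I)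
    (hX : 1 < m → ∀ i, (X (Sum.inl i) : MvPolynomial (Fin a ⊕ τ) K) ∉ I)
    (hXX : ∀ i j, i ≠ j → (X (Sum.inl j) ^ m - X (Sum.inl i) ^ m : MvPolynomial (Fin a ⊕ τ) K) ∉ I) :
    I = Ideal.span {F | F ∈ I ∧ ∃ P, psi K a τ m P = F} := by
  apply le_antisymm
  swap
  · rw [Ideal.span_le]
    exact fun f hf => hf.1
  set I₁ := I.comap (pw m : MvPolynomial (Fin a ⊕ τ) K →ₐ[K] _) with hI₁
  have hI₁p : I₁.IsPrime := Ideal.comap_isPrime _ _
  have h1 := span_root hm hη I hroot hX
  have h2 : I₁ = Ideal.span {f | f ∈ I₁ ∧ IsSym f} := by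
    apply span_sym
    · intro s f hf
      rw [hI₁, Ideal.mem_comap] at hf ⊢
      rw [pw_rho]
      exact hst s _ hf
    · rw [hI₁, Ideal.mem_comap, pw_vdm, hI.prod_mem_iff]
      rintro ⟨⟨i, j⟩, hp, h⟩
      simp only [Finset.mem_sigma, Finset.mem_univ, Finset.mem_Ioi, true_and] at hp
      exact hXX i j hp.ne h
  intro g hg
  rw [h1, ← hI₁, h2, Ideal.map_span] at hg
  refine (Ideal.span_le.2 ?_) hg
  rintro _ ⟨f, ⟨hf, hfs⟩, rfl⟩
  refine Ideal.subset_span ⟨hf, ?_⟩
  obtain ⟨P, hP⟩ := sym_mem_range f hfs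
  exact ⟨P, by rw [← pw_psi, hP]⟩

omit [Fintype τ] in
/-- Step A -/
theorem low_span (I : Ideal (MvPolynomial (Fin a ⊕ τ) K))
    (hhom : ∀ F ∈ I, ∀ d, homogeneousComponent d F ∈ I) {m : ℕ}
    (hI : I = Ideal.span {F | F ∈ I ∧ ∃ P, psi K a τ m P = F}) {n : ℕ}
    {F : MvPolynomial (Fin a ⊕ τ) K} (hF : F ∈ I) (hn : F.totalDegree < n) :
    F ∈ Ideal.span {G | G ∈ I ∧ ∃ e < n, ∃ P, IsWeightedHomogeneous (wt a τ m) P e ∧
      psi K a τ m P = G} := by
  rw [← sum_homogeneousComponent F]
  refine Ideal.sum_mem _ fun e he => ?_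
  rw [Finset.mem_range] at he
  rw [hI] at hF
  have h1 := homogeneousComponent_mem_span hF e
  refine (Ideal.span_le.2 ?_) h1
  rintro _ ⟨t, ⟨htI, P, hP⟩, e', he', rfl⟩
  refine Ideal.subset_span ⟨hhom t htI e', e', by omega, weightedHomogeneousComponent (wt a τ m) e' P,
    weightedHomogeneousComponent_isWeightedHomogeneous e' P, ?_⟩
  rw [← homogeneousComponent_psi, hP]

/-- a polynomial in characteristic zero all of whose derivatives vanish is constant -/
theorem eq_C_of_pderiv {ι : Type*} [CharZero K] (R : MvPolynomial ι K)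
    (h : ∀ j, pderiv j R = 0) : R = C (coeff 0 R) := by
  classical
  apply MvPolynomial.ext
  intro u
  rw [coeff_C]
  by_cases hu : u = 0
  · rw [if_pos hu.symm, hu]
  rw [if_neg (Ne.symm hu)]
  obtain ⟨j, hj⟩ : ∃ j, u j ≠ 0 := by
    by_contra hcon
    push Not at hcon
    exact hu (by ext j; exact hcon j)
  have h1 := congrArg (coeff (u - Finsupp.single j 1)) (h j)
  rw [coeff_pderiv] at h1
  have h2 : u - Finsupp.single j 1 + Finsupp.single j 1 = u := by
    apply tsub_add_cancel_of_le
    rw [Finsupp.single_le_iff]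
    omega
  rw [h2, coeff_zero] at h1
  refine (mul_eq_zero.1 h1).resolve_right ?_
  have h3 : (((u - Finsupp.single j 1 : ι →₀ ℕ) j + 1 : ℕ) : K) ≠ 0 :=
    Nat.cast_ne_zero.2 (Nat.succ_ne_zero _)
  rwa [Nat.cast_add, Nat.cast_one] at h3

/-- Steps F, G: a polynomial in the remaining generators which lies in the ideal is zero -/
theorem rest_zero [IsAlgClosed K] [CharZero K] [DecidableEq τ]
    (I : Ideal (MvPolynomial (Fin a ⊕ τ) K)) [hI : I.IsPrime]
    {m : ℕ} (hm : 0 < m) {r : ℕ}
    (hsm : ∀ x ∈ cone I, eval x (disc K a τ m) ≠ 0 → Module.finrank K (conormal I x) = r)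
    (hdisc : disc K a τ m ∉ I) (P : Fin r → MvPolynomial (Fin a ⊕ τ) K)
    (hPI : ∀ i, psi K a τ m (P i) ∈ I) {n' : ℕ} (w : Fin n' → Fin a ⊕ τ)
    (hn' : r + n' = Fintype.card (Fin a ⊕ τ))
    (helim : ∀ Q : MvPolynomial (Fin a ⊕ τ) K, ∃ R : MvPolynomial (Fin n') K,
      Q - aeval (fun j => (X (w j) : MvPolynomial (Fin a ⊕ τ) K)) R ∈ Ideal.span (Set.range P))
    (R : MvPolynomial (Fin n') K) (hR : aeval (fun j => gen K a τ m (w j)) R ∈ I) : R = 0 := by
  classical
  -- independence of the gradients
  have hind : ∀ x ∈ cone I, eval x (disc K a τ m) ≠ 0 → LinearIndependent K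
      (Sum.elim (fun i => grad (psi K a τ m (P i)) x) (fun j => grad (gen K a τ m (w j)) x)) := by
    intro x hx hxd
    apply linearIndependent_of_top_le_span_of_card_eq_finrank
    · rw [← span_grad_gen hm x hxd, Submodule.span_le]
      rintro _ ⟨k, rfl⟩
      obtain ⟨R, hR⟩ := helim (X k)
      have h1 : gen K a τ m k = psi K a τ m (X k - aeval (fun j => (X (w j) :
          MvPolynomial (Fin a ⊕ τ) K)) R) + aeval (fun j => gen K a τ m (w j)) R := by
        have h2 : psi K a τ m (aeval (fun j => (X (w j) : MvPolynomial (Fin a ⊕ τ) K)) R) =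
            aeval (fun j => gen K a τ m (w j)) R := by
          have : (psi K a τ m).comp (aeval (fun j => (X (w j) : MvPolynomial (Fin a ⊕ τ) K))) =
              aeval (fun j => gen K a τ m (w j)) := by
            apply MvPolynomial.algHom_ext
            intro j
            rw [AlgHom.comp_apply, aeval_X, psi_X, aeval_X]
          exact congrArg (fun φ => φ R) this
        rw [map_sub, h2, psi_X]
        ring
      simp only [SetLike.mem_coe]
      rw [h1, grad_add]
      refine Submodule.add_mem _ ?_ ?_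
      · have h3 : psi K a τ m (X k - aeval (fun j => (X (w j) :
            MvPolynomial (Fin a ⊕ τ) K)) R) ∈
            Ideal.span (Set.range fun i => psi K a τ m (P i)) := by
          have h4 := Ideal.mem_map_of_mem (psi K a τ m) hR
          rw [Ideal.map_span, ← Set.range_comp] at h4
          exact h4
        have h5 := (grad_mem_span (x := x) (by
          rintro _ ⟨i, rfl⟩
          exact hx _ (hPI i)) h3).2
        refine Submodule.span_mono ?_ h5
        rintro _ ⟨_, ⟨i, rfl⟩, rfl⟩
        exact ⟨Sum.inl i, rfl⟩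
      · rw [grad_aeval]
        exact Submodule.sum_mem _ fun j _ => Submodule.smul_mem _ _
          (Submodule.subset_span ⟨Sum.inr j, rfl⟩)
    · rw [Fintype.card_sum, Fintype.card_fin, Fintype.card_fin, Module.finrank_fintype_fun_eq_card,
        hn']
  -- the derivatives
  have hder : ∀ R : MvPolynomial (Fin n') K, aeval (fun j => gen K a τ m (w j)) R ∈ I → ∀ j,
      aeval (fun j => gen K a τ m (w j)) (pderiv j R) ∈ I := by
    intro R hR j
    have h1 : aeval (fun j => gen K a τ m (w j)) (pderiv j R) * disc K a τ m ∈ I := by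
      rw [← hI.isRadical.radical, ← MvPolynomial.vanishingIdeal_zeroLocus_eq_radical (K := K) I,
        MvPolynomial.mem_vanishingIdeal_iff]
      intro x hx
      have hx' : x ∈ cone I := by
        intro F hF
        have := (MvPolynomial.mem_zeroLocus_iff.1 hx) F hF
        rwa [aeval_eq_eval] at this
      rw [aeval_eq_eval, map_mul]
      by_cases hxd : eval x (disc K a τ m) = 0
      · rw [hxd, mul_zero]
      have h2 := hind x hx' hxd
      have h3 : grad (aeval (fun j => gen K a τ m (w j)) R) x ∈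
          Submodule.span K (Set.range fun i => grad (psi K a τ m (P i)) x) := by
        have h4 : Submodule.span K (Set.range fun i => grad (psi K a τ m (P i)) x) =
            conormal I x := by
          apply Submodule.eq_of_le_of_finrank_eq
          · rw [Submodule.span_le]
            rintro _ ⟨i, rfl⟩
            exact Submodule.subset_span ⟨_, hPI i, rfl⟩
          · have h5 : LinearIndependent K (fun i => grad (psi K a τ m (P i)) x) :=
              h2.comp Sum.inl Sum.inl_injective
            rw [finrank_span_eq_card h5, Fintype.card_fin, hsm x hx' hxd]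
        rw [h4]
        exact Submodule.subset_span ⟨_, hR, rfl⟩
      rw [grad_aeval] at h3
      -- disjointness
      have h6 : ∑ k, eval (fun k => eval x (gen K a τ m (w k))) (pderiv k R) •
          grad (gen K a τ m (w k)) x = 0 := by
        have h7 := (linearIndependent_sum.1 h2).2.2
        rw [Submodule.disjoint_def] at h7
        refine h7 _ h3 ?_
        exact Submodule.sum_mem _ fun j _ => Submodule.smul_mem _ _
          (Submodule.subset_span ⟨j, rfl⟩)
      have h8 := (Fintype.linearIndependent_iff.1 (h2.comp Sum.inr Sum.inr_injective)) _ h6 j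
      rw [eval_aeval, h8, zero_mul]
    exact (hI.mem_or_mem h1).resolve_right hdisc
  -- induction on the degree
  induction hn : R.totalDegree using Nat.strong_induction_on generalizing R with
  | _ n ih =>
    rcases Nat.eq_zero_or_pos n with h0 | h0
    · rw [h0] at hn
      have h1 := totalDegree_eq_zero_iff_eq_C.1 hn
      rw [h1] at hR ⊢
      rw [← algebraMap_eq, AlgHom.commutes, algebraMap_eq] at hR
      by_contra h2
      apply hI.ne_top
      refine Ideal.eq_top_of_isUnit_mem _ hR ((isUnit_iff_ne_zero.2 ?_).map C)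
      intro h3
      apply h2
      rw [h3, C_0]
    · have h1 : ∀ j, pderiv j R = 0 := by
        intro j
        refine ih (pderiv j R).totalDegree ?_ (pderiv j R) (hder R hR j) rfl
        unfold totalDegree
        rw [Finset.sup_lt_iff (by rw [Nat.bot_eq_zero]; exact h0)]
        intro u hu
        rw [mem_support_iff, coeff_pderiv] at hu
        have h2 : u + Finsupp.single j 1 ∈ R.support :=
          mem_support_iff.2 (left_ne_zero_of_mul hu)
        have h3 := le_totalDegree h2
        rw [Finsupp.sum_add_index' (fun _ => rfl) (fun _ _ _ => rfl),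
          Finsupp.sum_single_index rfl, hn] at h3
        omega
      have h2 := eq_C_of_pderiv R h1
      rw [h2, totalDegree_C] at hn
      omega

end Pool.Agent.W467.Sym
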