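import Pool.Agent.W467.Sym.Final

/-!
Symmetric smooth varieties which are cut out in low degree.
-/

set_option autoImplicit false

namespace Pool.Agent.W467.Sym

open MvPolynomial

variable {K : Type*} [Field K] {a : ℕ} {τ : Type*} [Fintype τ]

/-- The theorem for ideals of `K[x_1, …, x_a, y_j]`. -/
theorem main_sum [IsAlgClosed K] [CharZero K] (I : Ideal (MvPolynomial (Fin a ⊕ τ) K))
    [hI : I.IsPrime] (hhom : ∀ F ∈ I, ∀ d, homogeneousComponent d F ∈ I)
    {m : ℕ} (hm : 0 < m) (ha : 2 ≤ a) {r : ℕ}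
    (hsm : ∀ x ∈ cone I, x ≠ 0 → Module.finrank K (conormal I x) = r)
    (hst : ∀ s : Equiv.Perm (Fin a), ∀ f ∈ I, rho s f ∈ I)
    (hroot : ∀ t : Fin a → K, (∀ i, t i ^ m = 1) → ∀ f ∈ I, scal t f ∈ I)
    (hX : 1 < m → ∀ i, (X (Sum.inl i) : MvPolynomial (Fin a ⊕ τ) K) ∉ I)
    (hXX : ∀ i j, i ≠ j → (X (Sum.inl j) ^ m - X (Sum.inl i) ^ m : MvPolynomial (Fin a ⊕ τ) K) ∉ I)
    {ζ : K} (hζ : IsPrimitiveRoot ζ (m * a))
    (hcut1 : ∀ x, (∀ F ∈ I, F.totalDegree < m * a → eval x F = 0) → x ∈ cone I)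
    (hcut2 : ∀ x ∈ cone I, conormal I x ≤
      Submodule.span K {ξ | ∃ F ∈ I, F.totalDegree < m * a ∧ ξ = grad F x}) :
    ∃ c : Fin r → MvPolynomial (Fin a ⊕ τ) K, (∀ i, ∃ e < m * a, (c i).IsHomogeneous e) ∧
      (∀ i, ∃ P, psi K a τ m P = c i) ∧ I = Ideal.span (Set.range c) := by
  classical
  have ha0 : 0 < a := by omega
  -- generation
  have hη : IsPrimitiveRoot (ζ ^ a) m := hζ.pow (Nat.mul_pos hm ha0) (by ring)
  have hω : IsPrimitiveRoot (ζ ^ m) a := hζ.pow (Nat.mul_pos hm ha0) rfl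
  have hspan := span_psi I hm hη hst hroot hX hXX
  -- the point
  set z : Fin a ⊕ τ → K := Sum.elim (fun i => ζ ^ i.1) (fun _ => 0) with hz
  set γ : Fin a ⊕ τ → K := fun k => eval z (gen K a τ m k) with hγdef
  have hγ : ∀ k, k ≠ Sum.inl ⟨a - 1, by omega⟩ → γ k = 0 := by
    intro k hk
    rcases k with k | j
    · simp only [hγdef, gen, Sum.elim_inl, map_sum, map_pow, eval_X, hz]
      have hk' : k.1 + 1 < a := by
        have h1 := k.2
        have h2 : k.1 ≠ a - 1 := fun h => hk (by rw [Sum.inl.injEq]; exact Fin.ext h)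
        omega
      have h1 : ∀ i : Fin a, (ζ ^ i.1) ^ (m * (k.1 + 1)) = ((ζ ^ m) ^ (k.1 + 1)) ^ i.1 := by
        intro i
        rw [← pow_mul, ← pow_mul, ← pow_mul]
        congr 1
        ring
      simp only [h1]
      rw [Fin.sum_univ_eq_sum_range (fun i => ((ζ ^ m) ^ (k.1 + 1)) ^ i) a]
      have h2 := mul_geom_sum ((ζ ^ m) ^ (k.1 + 1)) a
      have h3 : ((ζ ^ m) ^ (k.1 + 1)) ^ a = 1 := by
        rw [← pow_mul, mul_comm, pow_mul, hω.pow_eq_one, one_pow]
      rw [h3, sub_self] at h2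
      refine (mul_eq_zero.1 h2).resolve_left (sub_ne_zero.2 ?_)
      exact hω.pow_ne_one_of_pos_of_lt (by omega) hk'
    · simp [hγdef, gen, hz]
  have hz0 : z ≠ 0 := by
    intro h
    have := congrFun h (Sum.inl ⟨0, ha0⟩)
    simp [hz] at this
  have hevalpsi : ∀ P : MvPolynomial (Fin a ⊕ τ) K, eval z (psi K a τ m P) = eval γ P := by
    intro P
    rw [psi, eval_aeval]
  -- the point lies on the variety
  have hzI : z ∈ cone I := by
    apply hcut1
    intro F hF hFd
    have h1 := low_span I hhom hspan hF hFd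
    refine (grad_mem_span (x := z) ?_ h1).1
    rintro G ⟨hG, e, he, P, hP, rfl⟩
    rw [hevalpsi]
    rcases Nat.eq_zero_or_pos e with h0 | h0
    · -- constants
      subst h0
      have h2 : (psi K a τ m P).IsHomogeneous 0 := psi_isHomogeneous m hP
      have h3 : (psi K a τ m P).totalDegree = 0 := by
        have := h2.totalDegree_le
        omega
      have h4 := totalDegree_eq_zero_iff_eq_C.1 h3
      rw [h4] at hG
      have h5 : coeff 0 (psi K a τ m P) = 0 := by
        by_contra h5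
        exact hI.ne_top (Ideal.eq_top_of_isUnit_mem _ hG ((isUnit_iff_ne_zero.2 h5).map C))
      rw [← hevalpsi, h4, h5, C_0, map_zero]
    · exact eval_low ha0 hγ hP he h0
  -- the gradients at the point
  set s : Set (Fin a ⊕ τ → K) := {ξ | ∃ e < m * a, ∃ P, IsWeightedHomogeneous (wt a τ m) P e ∧
    psi K a τ m P ∈ I ∧ ξ = grad (psi K a τ m P) z} with hs
  have hsc : Submodule.span K s = conormal I z := by
    apply le_antisymm
    · rw [Submodule.span_le]
      rintro _ ⟨e, he, P, hP, hPI, rfl⟩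
      exact Submodule.subset_span ⟨_, hPI, rfl⟩
    · refine (hcut2 z hzI).trans ?_
      rw [Submodule.span_le]
      rintro _ ⟨F, hF, hFd, rfl⟩
      have h1 := low_span I hhom hspan hF hFd
      have h2 := (grad_mem_span (x := z) (by
        rintro G ⟨hG, -⟩
        exact hzI G hG) h1).2
      refine Submodule.span_mono ?_ h2
      rintro _ ⟨G, ⟨hG, e, he, P, hP, rfl⟩, rfl⟩
      exact ⟨e, he, P, hP, hG, rfl⟩
  obtain ⟨f, hf, hfs, hfi⟩ := Submodule.exists_fun_fin_finrank_span_eq K s
  have hr : Module.finrank K (Submodule.span K s) = r := by rw [hsc, hsm z hzI hz0]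
  clear_value s
  subst hr
  have hf' : ∀ i, ∃ e < m * a, ∃ P, IsWeightedHomogeneous (wt a τ m) P e ∧
      psi K a τ m P ∈ I ∧ f i = grad (psi K a τ m P) z := fun i => (Set.ext_iff.1 hs (f i)).1 (hf i)
  choose e he P hP hPI hPf using hf'
  -- the linear parts
  set L : Fin (Module.finrank K (Submodule.span K s)) → (Fin a ⊕ τ) → K := fun i k =>
    coeff (Finsupp.single k 1) (P i) with hL
  have hLi : LinearIndependent K L := by
    set T : ((Fin a ⊕ τ) → K) →ₗ[K] ((Fin a ⊕ τ) → K) :=
      Fintype.linearCombination K (fun k => grad (gen K a τ m k) z) with hT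
    apply LinearIndependent.of_comp T
    have : (T ∘ L) = f := by
      funext i
      rw [Function.comp_apply, hPf i, hT, Fintype.linearCombination_apply, psi, grad_aeval]
      refine Finset.sum_congr rfl fun k _ => ?_
      rw [eval_pderiv_low ha0 hγ (hP i) (he i) k]
    rw [this]
    exact hfi
  obtain ⟨n', w, hn', hw⟩ := exists_compl L hLi
  have hwt : ∀ k, 0 < wt a τ m k := by
    rintro (k | j)
    · simp only [wt, Sum.elim_inl]
      positivity
    · simp [wt]
  have helim := elim (wt a τ m) hwt P e hP w hw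
  have hdisc : disc K a τ m ∉ I := by
    unfold disc
    intro h
    rcases hI.mem_or_mem h with h | h
    · rw [hI.prod_mem_iff] at h
      obtain ⟨i, -, hi⟩ := h
      rcases Nat.lt_or_ge 1 m with hm1 | hm1
      · exact hX hm1 i (hI.mem_of_pow_mem _ hi)
      · have : m - 1 = 0 := by omega
        rw [this, pow_zero] at hi
        exact hI.ne_top ((Ideal.eq_top_iff_one _).2 hi)
    · rw [pw_vdm, hI.prod_mem_iff] at h
      obtain ⟨⟨i, j⟩, hp, h⟩ := h
      simp only [Finset.mem_sigma, Finset.mem_univ, Finset.mem_Ioi, true_and] at hp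
      exact hXX i j hp.ne h
  have hsm' : ∀ x ∈ cone I, eval x (disc K a τ m) ≠ 0 →
      Module.finrank K (conormal I x) = Module.finrank K (Submodule.span K s) := by
    intro x hx hxd
    refine hsm x hx fun h0 => hxd ?_
    rw [h0, eval_disc]
    have : (Matrix.vandermonde fun i : Fin a => (0 : Fin a ⊕ τ → K) (Sum.inl i) ^ m).det = 0 := by
      rw [Matrix.det_vandermonde]
      refine Finset.prod_eq_zero (Finset.mem_univ (⟨0, ha0⟩ : Fin a)) ?_
      refine Finset.prod_eq_zero (i := (⟨1, by omega⟩ : Fin a)) ?_ ?_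
      · rw [Finset.mem_Ioi]
        exact Fin.mk_lt_mk.2 (by norm_num)
      · simp
    rw [this, mul_zero]
  refine ⟨fun i => psi K a τ m (P i), fun i => ⟨e i, he i, psi_isHomogeneous m (hP i)⟩,
    fun i => ⟨_, rfl⟩, ?_⟩
  apply le_antisymm
  · conv_lhs => rw [hspan]
    rw [Ideal.span_le]
    rintro F ⟨hF, Q, rfl⟩
    obtain ⟨R, hR⟩ := helim Q
    have h1 : psi K a τ m (Q - aeval (fun j => (X (w j) : MvPolynomial (Fin a ⊕ τ) K)) R) ∈
        Ideal.span (Set.range fun i => psi K a τ m (P i)) := by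
      have h4 := Ideal.mem_map_of_mem (psi K a τ m) hR
      rw [Ideal.map_span, ← Set.range_comp] at h4
      exact h4
    have h2 : psi K a τ m (aeval (fun j => (X (w j) : MvPolynomial (Fin a ⊕ τ) K)) R) =
        aeval (fun j => gen K a τ m (w j)) R := by
      have : (psi K a τ m).comp (aeval (fun j => (X (w j) : MvPolynomial (Fin a ⊕ τ) K))) =
          aeval (fun j => gen K a τ m (w j)) := by
        apply MvPolynomial.algHom_ext
        intro j
        rw [AlgHom.comp_apply, aeval_X, psi_X, aeval_X]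
      exact congrArg (fun φ => φ R) this
    rw [map_sub, h2] at h1
    have hle : Ideal.span (Set.range fun i => psi K a τ m (P i)) ≤ I := by
      rw [Ideal.span_le]
      rintro _ ⟨i, rfl⟩
      exact hPI i
    have h3 : aeval (fun j => gen K a τ m (w j)) R ∈ I := by
      have h5 := I.sub_mem hF (hle h1)
      rwa [sub_sub_cancel] at h5
    have h6 := rest_zero I hm hsm' hdisc P hPI w hn' helim R h3
    rw [h6, map_zero, sub_zero] at h1
    exact h1
  · rw [Ideal.span_le]
    rintro _ ⟨i, rfl⟩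
    exact hPI i

end Pool.Agent.W467.Sym
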