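import Pool.Agent.W467.Sym.Inv

/-!
Gradients of polynomials.
-/

set_option autoImplicit false

namespace Pool.Agent.W467.Sym

open MvPolynomial

variable {K : Type*} [Field K] {σ : Type*}

/-- the gradient of `F` at `x` -/
noncomputable def grad (F : MvPolynomial σ K) (x : σ → K) : σ → K :=
  fun i => eval x (pderiv i F)

/-- the common zeros of the polynomials in `I` -/
def cone (I : Ideal (MvPolynomial σ K)) : Set (σ → K) := {x | ∀ F ∈ I, eval x F = 0}

/-- the span of the gradients at `x` of the elements of `I` -/
noncomputable def conormal (I : Ideal (MvPolynomial σ K)) (x : σ → K) : Submodule K (σ → K) :=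
  Submodule.span K {ξ | ∃ F ∈ I, ξ = grad F x}

@[simp] theorem grad_zero (x : σ → K) : grad (0 : MvPolynomial σ K) x = 0 := by
  ext i; simp [grad]

theorem grad_add (F G : MvPolynomial σ K) (x : σ → K) : grad (F + G) x = grad F x + grad G x := by
  ext i; simp [grad]

theorem grad_sum {ι : Type*} (s : Finset ι) (F : ι → MvPolynomial σ K) (x : σ → K) :
    grad (∑ i ∈ s, F i) x = ∑ i ∈ s, grad (F i) x := by
  ext j; simp [grad, map_sum]

theorem grad_mul (F G : MvPolynomial σ K) (x : σ → K) :
    grad (F * G) x = eval x F • grad G x + eval x G • grad F x := by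
  ext i; simp [grad, Derivation.leibniz]

theorem pderiv_aeval {ι : Type*} [Fintype ι] (g : ι → MvPolynomial σ K) (P : MvPolynomial ι K)
    (i : σ) : pderiv i (aeval g P) = ∑ k, aeval g (pderiv k P) * pderiv i (g k) := by
  classical
  induction P using MvPolynomial.induction_on with
  | C c => simp
  | add p q hp hq => simp only [map_add, hp, hq, add_mul, Finset.sum_add_distrib]
  | mul_X p j hp =>
    simp only [map_mul, aeval_X, Derivation.leibniz, smul_eq_mul, hp, pderiv_X, map_add,
      Pi.single_apply]
    simp only [apply_ite (aeval g), map_one, map_zero, mul_ite, mul_one, mul_zero, add_mul, ite_mul,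
      zero_mul, Finset.sum_add_distrib, Finset.sum_ite_eq, Finset.mem_univ, if_true]
    congr 1
    rw [Finset.mul_sum]
    exact Finset.sum_congr rfl (fun i _ => by ring)

theorem eval_aeval {ι : Type*} (g : ι → MvPolynomial σ K) (P : MvPolynomial ι K) (x : σ → K) :
    eval x (aeval g P) = eval (fun k => eval x (g k)) P := by
  induction P using MvPolynomial.induction_on with
  | C c => simp
  | add p q hp hq => rw [map_add, map_add, map_add, hp, hq]
  | mul_X p j hp => rw [map_mul, map_mul, map_mul, hp, aeval_X, eval_X]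

theorem grad_aeval {ι : Type*} [Fintype ι] (g : ι → MvPolynomial σ K) (P : MvPolynomial ι K)
    (x : σ → K) :
    grad (aeval g P) x = ∑ k, eval (fun k => eval x (g k)) (pderiv k P) • grad (g k) x := by
  ext i
  simp only [grad, pderiv_aeval, map_sum, map_mul, eval_aeval, Finset.sum_apply, Pi.smul_apply,
    smul_eq_mul]

/-- the gradient of an element of an ideal at a zero of the generators -/
theorem grad_mem_span {T : Set (MvPolynomial σ K)} {x : σ → K} (hT : ∀ t ∈ T, eval x t = 0)
    {F : MvPolynomial σ K} (hF : F ∈ Ideal.span T) :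
    eval x F = 0 ∧ grad F x ∈ Submodule.span K ((fun t => grad t x) '' T) := by
  refine Submodule.span_induction (p := fun F _ => eval x F = 0 ∧
    grad F x ∈ Submodule.span K ((fun t => grad t x) '' T)) ?_ ?_ ?_ ?_ hF
  · intro t ht
    exact ⟨hT t ht, Submodule.subset_span ⟨t, ht, rfl⟩⟩
  · simp
  · rintro F G - - ⟨h1, h2⟩ ⟨h3, h4⟩
    refine ⟨by rw [map_add, h1, h3, add_zero], ?_⟩
    rw [grad_add]
    exact Submodule.add_mem _ h2 h4
  · rintro c F - ⟨h1, h2⟩
    refine ⟨by rw [smul_eq_mul, map_mul, h1, mul_zero], ?_⟩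
    rw [smul_eq_mul, grad_mul, h1, zero_smul, add_zero]
    exact Submodule.smul_mem _ _ h2

/-- homogeneous components of elements of ideals -/
theorem homogeneousComponent_mem_span {T : Set (MvPolynomial σ K)} {F : MvPolynomial σ K}
    (hF : F ∈ Ideal.span T) (n : ℕ) :
    homogeneousComponent n F ∈ Ideal.span {G | ∃ t ∈ T, ∃ e ≤ n, G = homogeneousComponent e t} := by
  classical
  revert n
  refine Submodule.span_induction (p := fun F _ => ∀ n, homogeneousComponent n F ∈
    Ideal.span {G | ∃ t ∈ T, ∃ e ≤ n, G = homogeneousComponent e t}) ?_ ?_ ?_ ?_ hF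
  · intro t ht n
    exact Ideal.subset_span ⟨t, ht, n, le_rfl, rfl⟩
  · intro n
    rw [map_zero]
    exact Ideal.zero_mem _
  · intro F G _ _ h1 h2 n
    rw [map_add]
    exact Ideal.add_mem _ (h1 n) (h2 n)
  · intro c F _ h1 n
    rw [smul_eq_mul]
    conv in c * F => rw [← sum_homogeneousComponent c, ← sum_homogeneousComponent F]
    rw [Finset.sum_mul_sum, map_sum]
    refine Ideal.sum_mem _ fun i _ => ?_
    rw [map_sum]
    refine Ideal.sum_mem _ fun j _ => ?_
    rw [homogeneousComponent_of_mem ((homogeneousComponent_isHomogeneous i c).mul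
      (homogeneousComponent_isHomogeneous j F))]
    split_ifs with h
    · refine Ideal.mul_mem_left _ _ (Ideal.span_mono ?_ (h1 j))
      rintro G ⟨t, ht, e, he, rfl⟩
      exact ⟨t, ht, e, by omega, rfl⟩
    · exact Ideal.zero_mem _

end Pool.Agent.W467.Sym
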