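import Pool.Agent.W467.Sym.Root

/-!
Symmetric polynomials are polynomials in the power sums.
-/

set_option autoImplicit false

namespace Pool.Agent.W467.Sym

open MvPolynomial

variable {K : Type*} [Field K] {a : ℕ} {τ : Type*}

/-- the generators: power sums of the `m`-th powers of the first variables, and the second
variables -/
noncomputable def gen (K : Type*) [Field K] (a : ℕ) (τ : Type*) (m : ℕ) :
    Fin a ⊕ τ → MvPolynomial (Fin a ⊕ τ) K :=
  Sum.elim (fun k => ∑ i : Fin a, X (Sum.inl i) ^ (m * (k.1 + 1))) (fun j => X (Sum.inr j))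

/-- the polynomials in the generators -/
noncomputable def psi (K : Type*) [Field K] (a : ℕ) (τ : Type*) (m : ℕ) :
    MvPolynomial (Fin a ⊕ τ) K →ₐ[K] MvPolynomial (Fin a ⊕ τ) K :=
  aeval (gen K a τ m)

@[simp] theorem psi_X (m : ℕ) (k : Fin a ⊕ τ) : psi K a τ m (X k) = gen K a τ m k := by
  simp [psi]

theorem pw_psi (m : ℕ) (P : MvPolynomial (Fin a ⊕ τ) K) :
    pw m (psi K a τ 1 P) = psi K a τ m P := by
  have : (pw m).comp (psi K a τ 1) = psi K a τ m := by
    apply MvPolynomial.algHom_ext
    rintro (k | j)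
    · simp only [AlgHom.comp_apply, psi_X, gen, Sum.elim_inl, map_sum, map_pow, pw_inl, one_mul,
        ← pow_mul]
    · simp [gen]
  rw [← this]
  rfl

theorem esymm_mem [CharZero K] (k : ℕ) :
    (rename Sum.inl (esymm (Fin a) K k) : MvPolynomial (Fin a ⊕ τ) K) ∈ (psi K a τ 1).range := by
  induction k using Nat.strong_induction_on with
  | _ k ih =>
    rcases Nat.eq_zero_or_pos k with h0 | h0
    · subst h0
      rw [esymm_zero, map_one]
      exact Subalgebra.one_mem _
    rcases Nat.lt_or_ge a k with hk | hk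
    · have : esymm (Fin a) K k = 0 := by
        unfold esymm
        rw [Finset.powersetCard_eq_empty.2 (by rw [Finset.card_univ, Fintype.card_fin]; exact hk),
          Finset.sum_empty]
      rw [this, map_zero]
      exact Subalgebra.zero_mem _
    have h1 := congrArg (rename (Sum.inl : Fin a → Fin a ⊕ τ)) (mul_esymm_eq_sum (Fin a) K k)
    rw [map_mul, map_natCast, map_mul, map_pow, map_neg, map_one, map_sum] at h1
    have h2 : (k : MvPolynomial (Fin a ⊕ τ) K) * rename Sum.inl (esymm (Fin a) K k) ∈
        (psi K a τ 1).range := by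
      rw [h1]
      refine Subalgebra.mul_mem _ (Subalgebra.pow_mem _ (Subalgebra.neg_mem _
        (Subalgebra.one_mem _)) _) (Subalgebra.sum_mem _ fun p hp => ?_)
      rw [Finset.mem_filter] at hp
      obtain ⟨hp0, hp2⟩ := hp
      have hp1 : p.1 + p.2 = k := Finset.HasAntidiagonal.mem_antidiagonal.1 hp0
      rw [map_mul, map_mul, map_pow, map_neg, map_one]
      refine Subalgebra.mul_mem _ (Subalgebra.mul_mem _ (Subalgebra.pow_mem _ (Subalgebra.neg_mem _
        (Subalgebra.one_mem _)) _) (ih _ hp2)) ?_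
      have h3 : (rename Sum.inl (psum (Fin a) K p.2) : MvPolynomial (Fin a ⊕ τ) K) =
          psi K a τ 1 (X (Sum.inl ⟨p.2 - 1, by omega⟩)) := by
        rw [psi_X]
        simp only [gen, Sum.elim_inl, psum, map_sum, map_pow, rename_X]
        have : 1 * (p.2 - 1 + 1) = p.2 := by omega
        rw [this]
      rw [h3]
      exact ⟨_, rfl⟩
    have h4 : (rename Sum.inl (esymm (Fin a) K k) : MvPolynomial (Fin a ⊕ τ) K) =
        C ((k : K)⁻¹) * ((k : MvPolynomial (Fin a ⊕ τ) K) * rename Sum.inl (esymm (Fin a) K k)) := by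
      have h5 : (k : MvPolynomial (Fin a ⊕ τ) K) = C (k : K) := by rw [map_natCast]
      rw [h5, ← mul_assoc, ← C_mul, inv_mul_cancel₀ (Nat.cast_ne_zero.2 h0.ne'), C_1, one_mul]
    rw [h4]
    exact Subalgebra.mul_mem _ (Subalgebra.algebraMap_mem _ _) h2

theorem sym_mem_range [CharZero K] (f : MvPolynomial (Fin a ⊕ τ) K) (hf : IsSym f) :
    ∃ P, psi K a τ 1 P = f := by
  set e := sumAlgEquiv K (Fin a) τ with he
  have h1 : ∀ s : Equiv.Perm (Fin a), ∀ g : MvPolynomial (Fin a ⊕ τ) K,
      rename s (e g) = e (rho s g) := by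
    intro s g
    have : ((rename s : MvPolynomial (Fin a) (MvPolynomial τ K) →ₐ[MvPolynomial τ K] _).restrictScalars
        K).comp (e : MvPolynomial (Fin a ⊕ τ) K →ₐ[K] _) =
        (e : MvPolynomial (Fin a ⊕ τ) K →ₐ[K] _).comp (rho s) := by
      apply MvPolynomial.algHom_ext
      rintro (i | j)
      · simp [he, sumAlgEquiv_X_inl]
      · simp [he, sumAlgEquiv_X_inr]
    exact congrArg (fun φ => φ g) this
  have h2 : (e f).IsSymmetric := by
    intro s
    rw [h1, hf s]
  obtain ⟨P', hP'⟩ := esymmAlgHom_surjective (σ := Fin a) (R := MvPolynomial τ K) (n := a)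
    (by rw [Fintype.card_fin]) ⟨e f, h2⟩
  have h3 : aeval (fun i : Fin a => esymm (Fin a) (MvPolynomial τ K) (i.1 + 1)) P' = e f := by
    have := congrArg Subtype.val hP'
    rw [esymmAlgHom_apply] at this
    exact this
  have h4 : ∀ k, e.symm (esymm (Fin a) (MvPolynomial τ K) k) =
      rename Sum.inl (esymm (Fin a) K k) := by
    intro k
    unfold esymm
    simp only [map_sum, map_prod, rename_X, he, sumAlgEquiv_symm_X]
  have h5 : ∀ Q : MvPolynomial (Fin a) (MvPolynomial τ K),
      e.symm (aeval (fun i : Fin a => esymm (Fin a) (MvPolynomial τ K) (i.1 + 1)) Q) ∈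
        (psi K a τ 1).range := by
    intro Q
    induction Q using MvPolynomial.induction_on with
    | C r =>
      rw [← algebraMap_eq, AlgHom.commutes, algebraMap_eq]
      induction r using MvPolynomial.induction_on with
      | C c =>
        rw [he, sumAlgEquiv_symm_C_C]
        exact Subalgebra.algebraMap_mem _ _
      | add p q hp hq => rw [C_add, map_add]; exact Subalgebra.add_mem _ hp hq
      | mul_X p j hp =>
        rw [C_mul, map_mul]
        refine Subalgebra.mul_mem _ hp ?_
        rw [he, sumAlgEquiv_symm_C_X]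
        exact ⟨X (Sum.inr j), by simp [gen]⟩
    | add p q hp hq => rw [map_add, map_add]; exact Subalgebra.add_mem _ hp hq
    | mul_X p i hp =>
      rw [map_mul, map_mul, aeval_X]
      refine Subalgebra.mul_mem _ hp ?_
      rw [h4]
      exact esymm_mem _
  have h6 := h5 P'
  rw [h3, AlgEquiv.symm_apply_apply] at h6
  exact h6

/-- the weights -/
def wt (a : ℕ) (τ : Type*) (m : ℕ) : Fin a ⊕ τ → ℕ :=
  Sum.elim (fun k => m * (k.1 + 1)) (fun _ => 1)

theorem gen_isHomogeneous (m : ℕ) (k : Fin a ⊕ τ) : (gen K a τ m k).IsHomogeneous (wt a τ m k) := by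
  rcases k with k | j
  · simp only [gen, wt, Sum.elim_inl]
    refine IsHomogeneous.sum _ _ _ fun i _ => ?_
    exact isHomogeneous_X_pow _ _
  · simp only [gen, wt, Sum.elim_inr]
    exact isHomogeneous_X _ _

theorem psi_isHomogeneous (m : ℕ) {P : MvPolynomial (Fin a ⊕ τ) K} {n : ℕ}
    (hP : IsWeightedHomogeneous (wt a τ m) P n) : (psi K a τ m P).IsHomogeneous n := by
  classical
  rw [P.as_sum, map_sum]
  refine IsHomogeneous.sum _ _ _ fun u hu => ?_
  have h1 : Finsupp.weight (wt a τ m) u = n := hP (mem_support_iff.1 hu)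
  rw [psi, aeval_monomial, algebraMap_eq]
  have h2 : (u.prod fun i k => gen K a τ m i ^ k).IsHomogeneous n := by
    rw [← h1, Finsupp.weight_apply, Finsupp.sum]
    unfold Finsupp.prod
    refine IsHomogeneous.prod _ _ _ fun i _ => ?_
    have := (gen_isHomogeneous (K := K) m i).pow (u i)
    rwa [smul_eq_mul, mul_comm]
  have h3 := (isHomogeneous_C (Fin a ⊕ τ) (coeff u P)).mul h2
  rwa [zero_add] at h3

theorem homogeneousComponent_psi (m n : ℕ) (P : MvPolynomial (Fin a ⊕ τ) K) :
    homogeneousComponent n (psi K a τ m P) =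
      psi K a τ m (weightedHomogeneousComponent (wt a τ m) n P) := by
  classical
  induction P using MvPolynomial.induction_on' with
  | monomial u c =>
    have h1 : IsWeightedHomogeneous (wt a τ m) (monomial u c) (Finsupp.weight (wt a τ m) u) :=
      isWeightedHomogeneous_monomial _ _ _ rfl
    rw [weightedHomogeneousComponent_of_mem h1, homogeneousComponent_of_mem (psi_isHomogeneous m h1)]
    split_ifs
    · rfl
    · rw [map_zero]
  | add p q hp hq => rw [map_add, map_add, hp, hq, map_add, map_add]

/-- homogeneous polynomials in the generators come from weighted homogeneous polynomials -/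
theorem exists_weighted (m : ℕ) {f : MvPolynomial (Fin a ⊕ τ) K} {n : ℕ}
    (hf : f.IsHomogeneous n) {P : MvPolynomial (Fin a ⊕ τ) K} (hP : psi K a τ m P = f) :
    ∃ Q, IsWeightedHomogeneous (wt a τ m) Q n ∧ psi K a τ m Q = f := by
  classical
  refine ⟨weightedHomogeneousComponent (wt a τ m) n P,
    weightedHomogeneousComponent_isWeightedHomogeneous n P, ?_⟩
  rw [← homogeneousComponent_psi, hP, homogeneousComponent_of_mem hf, if_pos rfl]

end Pool.Agent.W467.Sym
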