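import Pool.Agent.W467.Sym.Core

/-!
Symmetric smooth varieties which are cut out in low degree.
-/

set_option autoImplicit false

namespace Pool.Agent.W467.Sym

open MvPolynomial

variable {K : Type*} [Field K] {a : ℕ} {τ : Type*} [Fintype τ]

/-- the gradient of a weighted homogeneous polynomial of low weight in the generators, at a point
where all generators but the last power sum vanish -/
theorem eval_pderiv_low [DecidableEq τ] {m : ℕ} (ha : 0 < a)
    {γ : Fin a ⊕ τ → K} (hγ : ∀ k, k ≠ Sum.inl ⟨a - 1, by omega⟩ → γ k = 0)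
    {P : MvPolynomial (Fin a ⊕ τ) K} {n : ℕ} (hP : IsWeightedHomogeneous (wt a τ m) P n)
    (hn : n < m * a) (k : Fin a ⊕ τ) :
    eval γ (pderiv k P) = coeff (Finsupp.single k 1) P := by
  classical
  conv_lhs => rw [P.as_sum]
  rw [map_sum, map_sum]
  have h1 : ∀ u ∈ P.support, eval γ (pderiv k (monomial u (coeff u P))) =
      if u = Finsupp.single k 1 then coeff (Finsupp.single k 1) P else 0 := by
    intro u hu
    rw [pderiv_monomial, eval_monomial]
    by_cases h2 : u = Finsupp.single k 1
    · rw [if_pos h2, h2]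
      simp
    · rw [if_neg h2]
      by_cases h3 : u k = 0
      · rw [h3]; simp
      have hw := hP (mem_support_iff.1 hu)
      -- some other variable occurs
      obtain ⟨j, hj⟩ : ∃ j, (u - Finsupp.single k 1 : Fin a ⊕ τ →₀ ℕ) j ≠ 0 := by
        by_contra hcon
        push Not at hcon
        apply h2
        have h4 : Finsupp.single k 1 ≤ u := by
          rw [Finsupp.single_le_iff]; omega
        rw [← add_tsub_cancel_of_le h4]
        have : (u - Finsupp.single k 1 : Fin a ⊕ τ →₀ ℕ) = 0 := by
          ext j; exact hcon j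
        rw [this, add_zero]
      have hj' : u j ≠ 0 := by
        intro h5
        apply hj
        rw [Finsupp.tsub_apply, h5, Nat.zero_sub]
      have hjl : j ≠ Sum.inl ⟨a - 1, by omega⟩ := by
        intro h5
        have h6 := Finsupp.le_weight_of_ne_zero' (wt a τ m) hj'
        rw [hw, h5] at h6
        simp only [wt, Sum.elim_inl] at h6
        have h7 : a - 1 + 1 = a := by omega
        rw [h7] at h6
        omega
      have h8 : (u - Finsupp.single k 1 : Fin a ⊕ τ →₀ ℕ).prod (fun i e => γ i ^ e) = 0 := by
        rw [Finsupp.prod]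
        refine Finset.prod_eq_zero (Finsupp.mem_support_iff.2 hj) ?_
        rw [hγ j hjl, zero_pow hj]
      rw [h8, mul_zero]
  rw [Finset.sum_congr rfl h1, Finset.sum_ite_eq']
  split_ifs with h2
  · rfl
  · exact (notMem_support_iff.1 h2).symm

/-- the determinant of the gradients of the generators, up to a factor -/
noncomputable def disc (K : Type*) [Field K] (a : ℕ) (τ : Type*) (m : ℕ) :
    MvPolynomial (Fin a ⊕ τ) K :=
  (∏ i : Fin a, X (Sum.inl i) ^ (m - 1)) * pw m (vdm K a τ)

omit [Fintype τ] in
theorem eval_disc (m : ℕ) (x : Fin a ⊕ τ → K) :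
    eval x (disc K a τ m) = (∏ i : Fin a, x (Sum.inl i) ^ (m - 1)) *
      (Matrix.vandermonde fun i : Fin a => x (Sum.inl i) ^ m).det := by
  unfold disc
  rw [map_mul, map_prod]
  simp only [map_pow, eval_X]
  congr 1
  unfold vdm
  rw [Matrix.det_vandermonde, Matrix.det_vandermonde]
  simp only [map_prod, map_sub, pw_inl, map_pow, eval_X]

/-- Step F1: the gradients of the generators span -/
theorem span_grad_gen [CharZero K] [DecidableEq τ] {m : ℕ} (hm : 0 < m) (x : Fin a ⊕ τ → K)
    (hx : eval x (disc K a τ m) ≠ 0) :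
    Submodule.span K (Set.range fun k => grad (gen K a τ m k) x) = ⊤ := by
  classical
  rw [eval_disc] at hx
  obtain ⟨hx1, hx2⟩ := mul_ne_zero_iff.1 hx
  rw [Finset.prod_ne_zero_iff] at hx1
  rw [eq_top_iff]
  set W := Submodule.span K (Set.range fun k => grad (gen K a τ m k) x) with hW
  have h1 : ∀ j : τ, (Pi.single (Sum.inr j) 1 : Fin a ⊕ τ → K) ∈ W := by
    intro j
    have : (Pi.single (Sum.inr j) 1 : Fin a ⊕ τ → K) = grad (gen K a τ m (Sum.inr j)) x := by
      ext l
      simp only [grad, gen, Sum.elim_inr, pderiv_X, Pi.single_apply]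
      by_cases h : l = Sum.inr j
      · rw [if_pos h, if_pos h.symm, map_one]
      · rw [if_neg h, if_neg (fun h' => h h'.symm), map_zero]
    rw [this]
    exact Submodule.subset_span ⟨_, rfl⟩
  -- the first block
  have hgr : ∀ k : Fin a, grad (gen K a τ m (Sum.inl k)) x =
      Sum.elim (fun i => ((m * (k.1 + 1) : ℕ) : K) * (x (Sum.inl i) ^ (m - 1) *
        (x (Sum.inl i) ^ m) ^ k.1)) (fun _ => 0) := by
    intro k
    ext l
    simp only [grad, gen, Sum.elim_inl, map_sum]
    rcases l with l | l
    · rw [Finset.sum_eq_single l]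
      · rw [Derivation.leibniz_pow, pderiv_X_self]
        simp only [smul_eq_mul, nsmul_eq_mul, mul_one, map_mul, map_natCast, map_pow, eval_X,
          Sum.elim_inl]
        congr 1
        rw [← pow_mul, ← pow_add]
        congr 1
        have : m * (k.1 + 1) = m * k.1 + m := by ring
        omega
      · intro i _ hi
        rw [Derivation.leibniz_pow, pderiv_X_of_ne (fun h => hi (Sum.inl_injective h))]
        simp
      · intro h; exact absurd (Finset.mem_univ _) h
    · simp only [Sum.elim_inr]
      refine Finset.sum_eq_zero fun i _ => ?_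
      rw [Derivation.leibniz_pow, pderiv_X_of_ne (by simp)]
      simp
  have h2 : ∀ v : Fin a → K, (Sum.elim v (fun _ => 0) : Fin a ⊕ τ → K) ∈ W := by
    intro v
    -- solve the Vandermonde system
    set A := Matrix.vandermonde fun i : Fin a => x (Sum.inl i) ^ m with hA
    have hAu : IsUnit A.det := isUnit_iff_ne_zero.2 hx2
    obtain ⟨b, hb⟩ : ∃ b : Fin a → K, A.mulVec b = fun i => v i / x (Sum.inl i) ^ (m - 1) :=
      ⟨A⁻¹.mulVec _, by rw [Matrix.mulVec_mulVec, Matrix.mul_nonsing_inv _ hAu, Matrix.one_mulVec]⟩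
    have h3 : (Sum.elim v (fun _ => 0) : Fin a ⊕ τ → K) =
        ∑ k : Fin a, (b k / ((m * (k.1 + 1) : ℕ) : K)) • grad (gen K a τ m (Sum.inl k)) x := by
      ext l
      rw [Finset.sum_apply]
      simp only [Pi.smul_apply, hgr, smul_eq_mul]
      rcases l with l | l
      · simp only [Sum.elim_inl]
        have h4 := congrFun hb l
        have hxl := hx1 l (Finset.mem_univ l)
        rw [eq_div_iff hxl] at h4
        rw [← h4, Matrix.mulVec, dotProduct, Finset.sum_mul]
        refine Finset.sum_congr rfl fun k _ => ?_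
        rw [hA, Matrix.vandermonde_apply]
        have h5 : ((m * (k.1 + 1) : ℕ) : K) ≠ 0 := by
          rw [Nat.cast_ne_zero]
          positivity
        field_simp
      · simp
    rw [h3]
    exact Submodule.sum_mem _ fun k _ => Submodule.smul_mem _ _ (Submodule.subset_span ⟨_, rfl⟩)
  intro v _
  have h3 : v = (Sum.elim (fun i => v (Sum.inl i)) (fun _ => 0) : Fin a ⊕ τ → K) +
      ∑ j : τ, v (Sum.inr j) • (Pi.single (Sum.inr j) 1 : Fin a ⊕ τ → K) := by
    ext l
    rw [Pi.add_apply, Finset.sum_apply]
    rcases l with l | l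
    · simp
    · simp [Pi.single_apply]
  rw [h3]
  exact Submodule.add_mem _ (h2 _) (Submodule.sum_mem _ fun j _ => Submodule.smul_mem _ _ (h1 j))

end Pool.Agent.W467.Sym
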