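import Pool.Agent.W467.Sym.Alt

/-!
Prime ideals which are stable under multiplication of variables by roots of unity.
-/

set_option autoImplicit false

namespace Pool.Agent.W467.Sym

open MvPolynomial

section defs

variable {K : Type*} [Field K] {a : ℕ} {τ : Type*}

/-- the map `X (inl i) ↦ X (inl i) ^ m` -/
noncomputable def pw (m : ℕ) : MvPolynomial (Fin a ⊕ τ) K →ₐ[K] MvPolynomial (Fin a ⊕ τ) K :=
  aeval (Sum.elim (fun i => X (Sum.inl i) ^ m) (fun j => X (Sum.inr j)))

@[simp] theorem pw_inl (m : ℕ) (i : Fin a) :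
    pw m (X (Sum.inl i) : MvPolynomial (Fin a ⊕ τ) K) = X (Sum.inl i) ^ m := by simp [pw]

@[simp] theorem pw_inr (m : ℕ) (i : τ) :
    pw (a := a) m (X (Sum.inr i) : MvPolynomial (Fin a ⊕ τ) K) = X (Sum.inr i) := by simp [pw]

@[simp] theorem pw_C (m : ℕ) (c : K) :
    pw (a := a) m (C c : MvPolynomial (Fin a ⊕ τ) K) = C c := by simp [pw]

/-- scaling of the variables `X (inl i)` -/
noncomputable def scal (t : Fin a → K) : MvPolynomial (Fin a ⊕ τ) K →ₐ[K] MvPolynomial (Fin a ⊕ τ) K :=
  aeval (Sum.elim (fun i => C (t i) * X (Sum.inl i)) (fun j => X (Sum.inr j)))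

@[simp] theorem scal_inl (t : Fin a → K) (i : Fin a) :
    scal t (X (Sum.inl i) : MvPolynomial (Fin a ⊕ τ) K) = C (t i) * X (Sum.inl i) := by
  simp [scal]

@[simp] theorem scal_inr (t : Fin a → K) (i : τ) :
    scal t (X (Sum.inr i) : MvPolynomial (Fin a ⊕ τ) K) = X (Sum.inr i) := by simp [scal]

@[simp] theorem scal_C (t : Fin a → K) (c : K) :
    scal t (C c : MvPolynomial (Fin a ⊕ τ) K) = C c := by simp [scal]

end defs

variable {K : Type*} [Field K] {a : ℕ} {τ : Type*} [Fintype τ]

theorem monomial_prod (u : Fin a ⊕ τ →₀ ℕ) (c : K) :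
    (monomial u c : MvPolynomial (Fin a ⊕ τ) K) = C c * ((∏ i : Fin a, X (Sum.inl i) ^ u (Sum.inl i)) *
      ∏ j : τ, X (Sum.inr j) ^ u (Sum.inr j)) := by
  rw [monomial_eq, Finsupp.prod_fintype _ _ (by simp), Fintype.prod_sum_type]

theorem scal_monomial (t : Fin a → K) (u : Fin a ⊕ τ →₀ ℕ) (c : K) :
    scal t (monomial u c) = monomial u (c * ∏ i, t i ^ u (Sum.inl i)) := by
  rw [monomial_prod, monomial_prod]
  simp only [map_mul, map_prod, map_pow, scal_C, scal_inl, scal_inr, mul_pow,
    Finset.prod_mul_distrib]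
  ring

theorem coeff_scal (t : Fin a → K) (f : MvPolynomial (Fin a ⊕ τ) K) (u : Fin a ⊕ τ →₀ ℕ) :
    coeff u (scal t f) = coeff u f * ∏ i, t i ^ u (Sum.inl i) := by
  classical
  induction f using MvPolynomial.induction_on' with
  | monomial v c =>
    rw [scal_monomial, coeff_monomial, coeff_monomial]
    by_cases h : v = u
    · rw [if_pos h, if_pos h, h]
    · rw [if_neg h, if_neg h, zero_mul]
  | add p q hp hq => rw [map_add, coeff_add, coeff_add, hp, hq, add_mul]

/-- the residues of the exponents -/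
def res {m : ℕ} (hm : 0 < m) (u : Fin a ⊕ τ →₀ ℕ) : Fin a → Fin m :=
  fun i => ⟨u (Sum.inl i) % m, Nat.mod_lt _ hm⟩

/-- the quotients of the exponents -/
noncomputable def dv (m : ℕ) (u : Fin a ⊕ τ →₀ ℕ) : Fin a ⊕ τ →₀ ℕ :=
  Finsupp.equivFunOnFinite.symm (Sum.elim (fun i => u (Sum.inl i) / m) (fun j => u (Sum.inr j)))

theorem pw_dv {m : ℕ} (hm : 0 < m) (u : Fin a ⊕ τ →₀ ℕ) (c : K) (e : Fin a → Fin m)
    (he : res hm u = e) :
    (∏ i : Fin a, X (Sum.inl i) ^ (e i).1) * pw m (monomial (dv m u) c) = monomial u c := by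
  rw [monomial_prod, monomial_prod]
  simp only [map_mul, map_prod, map_pow, pw_C, pw_inl, pw_inr]
  have h1 : ∀ i : Fin a, dv m u (Sum.inl i) = u (Sum.inl i) / m := fun i => by simp [dv]
  have h2 : ∀ j : τ, dv m u (Sum.inr j) = u (Sum.inr j) := fun i => by simp [dv]
  simp only [h1, h2]
  have h3 : ∀ i : Fin a, (X (Sum.inl i) : MvPolynomial (Fin a ⊕ τ) K) ^ u (Sum.inl i) =
      X (Sum.inl i) ^ (e i).1 * (X (Sum.inl i) ^ m) ^ (u (Sum.inl i) / m) := by
    intro i
    rw [← pow_mul, ← pow_add, ← he]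
    congr 1
    simp only [res]
    rw [Nat.mod_add_div]
  simp only [h3, Finset.prod_mul_distrib]
  ring

omit [Fintype τ] in
theorem root_sum {m : ℕ} (hm : 0 < m) {η : K} (hη : IsPrimitiveRoot η m) (e : Fin a → Fin m)
    (u : Fin a ⊕ τ →₀ ℕ) :
    ∑ c : Fin a → Fin m, ∏ i, (η ^ (u (Sum.inl i) + m - (e i).1)) ^ (c i).1 =
      if res hm u = e then (m : K) ^ a else 0 := by
  classical
  have h1 := (Finset.prod_univ_sum (fun _ : Fin a => (Finset.univ : Finset (Fin m)))
    (fun i (k : Fin m) => (η ^ (u (Sum.inl i) + m - (e i).1)) ^ k.1)).symm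
  rw [Fintype.piFinset_univ] at h1
  rw [h1]
  have h2 : ∀ i : Fin a, ∑ k : Fin m, (η ^ (u (Sum.inl i) + m - (e i).1)) ^ k.1 =
      if res hm u i = e i then (m : K) else 0 := by
    intro i
    have h3 : (η ^ (u (Sum.inl i) + m - (e i).1) = 1) ↔ res hm u i = e i := by
      rw [hη.pow_eq_one_iff_dvd]
      have he := (e i).2
      constructor
      · rintro ⟨k, hk⟩
        apply Fin.ext
        simp only [res]
        have h4 : u (Sum.inl i) + m = m * k + (e i).1 := by omega
        have h5 : (u (Sum.inl i) + m) % m = (e i).1 := by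
          rw [h4, Nat.mul_add_mod, Nat.mod_eq_of_lt he]
        rwa [Nat.add_mod_right] at h5
      · intro h4
        have h5 : u (Sum.inl i) % m = (e i).1 := congrArg Fin.val h4
        have h6 := Nat.mod_add_div (u (Sum.inl i)) m
        refine ⟨u (Sum.inl i) / m + 1, ?_⟩
        rw [mul_add, mul_one]
        omega
    rw [Fin.sum_univ_eq_sum_range (fun k => (η ^ (u (Sum.inl i) + m - (e i).1)) ^ k) m]
    by_cases h4 : η ^ (u (Sum.inl i) + m - (e i).1) = 1
    · rw [if_pos (h3.1 h4), h4]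
      simp
    · rw [if_neg (fun h5 => h4 (h3.2 h5))]
      have h5 := mul_geom_sum (η ^ (u (Sum.inl i) + m - (e i).1)) m
      rw [← pow_mul, mul_comm _ m, pow_mul, hη.pow_eq_one, one_pow, sub_self] at h5
      exact (mul_eq_zero.1 h5).resolve_left (sub_ne_zero.2 h4)
  simp only [h2]
  by_cases h : res hm u = e
  · rw [if_pos h]
    simp [h]
  · rw [if_neg h]
    obtain ⟨i, hi⟩ := Function.ne_iff.1 h
    exact Finset.prod_eq_zero (Finset.mem_univ i) (if_neg hi)

/-- A prime ideal which is stable under the multiplication of the variables `X (inl i)` by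
`m`-th roots of unity and which contains none of them is generated by polynomials in
`X (inl i) ^ m` and the other variables. -/
theorem span_root [CharZero K] {m : ℕ} (hm : 0 < m) {η : K} (hη : IsPrimitiveRoot η m)
    (I : Ideal (MvPolynomial (Fin a ⊕ τ) K)) [hI : I.IsPrime]
    (hst : ∀ t : Fin a → K, (∀ i, t i ^ m = 1) → ∀ f ∈ I, scal t f ∈ I)
    (hX : 1 < m → ∀ i, (X (Sum.inl i) : MvPolynomial (Fin a ⊕ τ) K) ∉ I) :
    I = (I.comap (pw m : MvPolynomial (Fin a ⊕ τ) K →ₐ[K] _)).map
      (pw m : MvPolynomial (Fin a ⊕ τ) K →ₐ[K] _) := by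
  classical
  apply le_antisymm
  swap
  · exact Ideal.map_comap_le
  intro f hf
  -- the pieces
  set h : (Fin a → Fin m) → MvPolynomial (Fin a ⊕ τ) K := fun e =>
    ∑ u ∈ f.support with res hm u = e, monomial (dv m u) (coeff u f) with hh
  have h1 : ∀ e, (∏ i : Fin a, X (Sum.inl i) ^ (e i).1) * pw m (h e) =
      ∑ u ∈ f.support with res hm u = e, monomial u (coeff u f) := by
    intro e
    simp only [hh]
    rw [map_sum, Finset.mul_sum]
    refine Finset.sum_congr rfl fun u hu => ?_
    exact pw_dv hm u _ e (Finset.mem_filter.1 hu).2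
  have h2 : f = ∑ e, (∏ i : Fin a, X (Sum.inl i) ^ (e i).1) * pw m (h e) := by
    simp only [h1]
    rw [Finset.sum_fiberwise]
    exact f.as_sum
  have h3 : ∀ e, (∏ i : Fin a, X (Sum.inl i) ^ (e i).1) * pw m (h e) ∈ I := by
    intro e
    set q : MvPolynomial (Fin a ⊕ τ) K := ∑ c : Fin a → Fin m,
      C (∏ i, (η ^ (m - (e i).1)) ^ (c i).1) * scal (fun i => η ^ (c i).1) f with hq
    have hqI : q ∈ I := I.sum_mem fun c _ => I.mul_mem_left _ (hst _ (fun i => by
      rw [← pow_mul, mul_comm, pow_mul, hη.pow_eq_one, one_pow]) _ hf)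
    have hqe : q = C ((m : K) ^ a) * ∑ u ∈ f.support with res hm u = e, monomial u (coeff u f) := by
      apply MvPolynomial.ext
      intro u
      rw [hq, coeff_sum, coeff_C_mul, coeff_sum]
      have h4 : ∀ c : Fin a → Fin m, coeff u (C (∏ i, (η ^ (m - (e i).1)) ^ (c i).1) *
          scal (fun i => η ^ (c i).1) f) =
          coeff u f * ∏ i, (η ^ (u (Sum.inl i) + m - (e i).1)) ^ (c i).1 := by
        intro c
        rw [coeff_C_mul, coeff_scal, mul_left_comm, ← Finset.prod_mul_distrib]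
        congr 1
        refine Finset.prod_congr rfl fun i _ => ?_
        have he := (e i).2
        have h5 : u (Sum.inl i) + m - (e i).1 = (m - (e i).1) + u (Sum.inl i) := by omega
        rw [h5, ← pow_mul, ← pow_mul, ← pow_mul, ← pow_add]
        congr 1
        ring
      simp only [h4, ← Finset.mul_sum]
      rw [root_sum hm hη]
      simp only [coeff_monomial]
      rw [Finset.sum_filter]
      by_cases hu : u ∈ f.support
      · rw [Finset.sum_eq_single u]
        · rw [if_pos rfl]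
          by_cases hr : res hm u = e
          · rw [if_pos hr, if_pos hr, mul_comm]
          · rw [if_neg hr, if_neg hr]; simp
        · intro v _ hvu
          rw [if_neg hvu, ite_self]
        · intro h; exact absurd hu h
      · rw [notMem_support_iff.1 hu, zero_mul]
        symm
        rw [mul_eq_zero]
        right
        refine Finset.sum_eq_zero fun v hv => ?_
        have : v ≠ u := fun h => hu (h ▸ hv)
        rw [if_neg this, ite_self]
    rw [h1]
    rw [hqe] at hqI
    refine (hI.mem_or_mem hqI).resolve_left fun h5 => hI.ne_top ?_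
    refine Ideal.eq_top_of_isUnit_mem _ h5 ?_
    exact (isUnit_iff_ne_zero.2 (pow_ne_zero _ (Nat.cast_ne_zero.2 hm.ne'))).map C
  have h4 : ∀ e, h e ∈ I.comap (pw m : MvPolynomial (Fin a ⊕ τ) K →ₐ[K] _) := by
    intro e
    rw [Ideal.mem_comap]
    refine (hI.mem_or_mem (h3 e)).resolve_left fun h5 => ?_
    rw [hI.prod_mem_iff] at h5
    obtain ⟨i, -, hi⟩ := h5
    rcases Nat.lt_or_ge 1 m with hm1 | hm1
    · exact hX hm1 i (hI.mem_of_pow_mem _ hi)
    · have : (e i).1 = 0 := by have := (e i).2; omega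
      rw [this, pow_zero] at hi
      exact hI.ne_top ((Ideal.eq_top_iff_one _).2 hi)
  rw [h2]
  exact Ideal.sum_mem _ fun e _ => Ideal.mul_mem_left _ _ (Ideal.mem_map_of_mem _ (h4 e))

end Pool.Agent.W467.Sym
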